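import Pool.Agent.H84.SS.Targets

/-!
# Singular spectrum, row M_LIM
-/

set_option autoImplicit false

namespace Pool.Agent.H84.SS

open MeasureTheory Filter Topology Set ProbabilityTheory
open scoped ENNReal ComplexConjugate
open Pool.Agent.H85.RT (avg GoodWeight Good)
open Pool.Agent.H94.RTB (LGood PD)

universe u v

/-- a measurable family evaluated at a measurable random index is measurable -/
theorem meas_random {X : Type u} [MeasurableSpace X] {N : X → ℕ} (hN : Measurable N)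
    {F : ℕ → X → ℂ} (hF : ∀ k, Measurable (F k)) : Measurable fun x => F (N x) x := by
  have h : Measurable fun p : ℕ × X => F p.1 p.2 := measurable_from_prod_countable_right hF
  exact h.comp (hN.prodMk measurable_id)

theorem iter_meas {X : Type u} [MeasurableSpace X] (T : X ≃ᵐ X) (n : ℕ) : Measurable (T^[n]) :=
  T.measurable.iterate n

theorem ph_meas {X : Type u} [MeasurableSpace X] {T : X ≃ᵐ X} {f g : X → ℂ} {w : ℕ → ℂ}
    {N : X → ℕ} {θ : X → ℂ} (hf : Measurable f) (hg : Measurable g) (hN : Measurable N)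
    (hθ : Measurable θ) (a b c : ℕ) : Measurable (ph T f g w N θ a b c) := by
  unfold ph
  refine hθ.mul ?_
  refine meas_random (F := fun k x => (∑ n ∈ Finset.Icc 1 k, w (n + a) * f (T^[n + b] x) *
    g (T.symm^[n + c] x)) / (k : ℂ)) hN fun k => ?_
  refine Measurable.div_const (Finset.measurable_sum _ fun n _ => ?_) _
  exact (measurable_const.mul (hf.comp (iter_meas T _))).mul (hg.comp (iter_meas T.symm _))

theorem ph_bdd {X : Type u} [MeasurableSpace X] {T : X ≃ᵐ X} {f g : X → ℂ} {w : ℕ → ℂ}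
    {N : X → ℕ} {θ : X → ℂ} {B : ℝ} (hf : ∀ x, ‖f x‖ ≤ 1) (hg : ∀ x, ‖g x‖ ≤ 1)
    (hw : ∀ n, ‖w n‖ ≤ B) (hN : ∀ x, 1 ≤ N x) (hθ : ∀ x, ‖θ x‖ ≤ 1) (a b c : ℕ) (x : X) :
    ‖ph T f g w N θ a b c x‖ ≤ B := by
  have hB : 0 ≤ B := (norm_nonneg _).trans (hw 0)
  unfold ph
  rw [norm_mul, norm_div, Complex.norm_natCast]
  have hNx : (0 : ℝ) < N x := by
    have := hN x
    exact_mod_cast this
  have h1 : ‖∑ n ∈ Finset.Icc 1 (N x), w (n + a) * f (T^[n + b] x) * g (T.symm^[n + c] x)‖ ≤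
      (N x : ℝ) * B := by
    refine (norm_sum_le _ _).trans ?_
    refine (Finset.sum_le_card_nsmul _ _ B fun n _ => ?_).trans ?_
    · rw [norm_mul, norm_mul]
      calc ‖w (n + a)‖ * ‖f (T^[n + b] x)‖ * ‖g (T.symm^[n + c] x)‖ ≤ B * 1 * 1 := by
            gcongr
            · exact hw _
            · exact hf _
            · exact hg _
        _ = B := by ring
    · rw [Nat.card_Icc, nsmul_eq_mul]
      simp
  calc ‖θ x‖ * (‖∑ n ∈ Finset.Icc 1 (N x), w (n + a) * f (T^[n + b] x) *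
        g (T.symm^[n + c] x)‖ / (N x : ℝ)) ≤ 1 * (((N x : ℝ) * B) / (N x : ℝ)) := by
        gcongr
        exact hθ x
    _ = B := by field_simp

theorem pf_LIM (h : M_WKL.{u}) : M_LIM.{u} := by
  intro X _ μ _ T f g w B N θ hf hg hf1 hg1 hw hR
  have h1 : ∀ a b c : ℕ, ∃ R : X → ℂ, StronglyMeasurable[MeasurableSpace.invariants T] R ∧
      Integrable R μ ∧ ∀ Q, MeasurableSet[MeasurableSpace.invariants T] Q →
        Tendsto (fun i => ∫ x in Q, ph T f g w (N i) (θ i) a b c x ∂μ) (hyperfilter ℕ)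
          (𝓝 (∫ x in Q, R x ∂μ)) := by
    intro a b c
    exact h X (MeasurableSpace.invariants T) μ (MeasurableSpace.invariants_le T)
      (fun i => ph T f g w (N i) (θ i) a b c) B
      (fun i => ph_meas hf hg (hR.measN i) (hR.measθ i) a b c)
      (fun i x => ph_bdd hf1 hg1 hw (fun x => (Nat.le_add_left 1 i).trans (hR.large i x))
        (hR.bddθ i) a b c x)
  choose R hR1 hR2 hR3 using h1
  exact ⟨R, ⟨hR1, hR2, fun a b c Q hQ => hR3 a b c Q hQ⟩⟩

end Pool.Agent.H84.SS
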