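import Pool.Agent.H84.SS.Targets

/-!
# Singular spectrum, row D_ACP
-/

set_option autoImplicit false

namespace Pool.Agent.H84.SS

open MeasureTheory Filter Topology Set ProbabilityTheory
open scoped ENNReal ComplexConjugate
open Pool.Agent.H85.RT (avg GoodWeight Good)
open Pool.Agent.H94.RTB (LGood PD)

theorem ch_cont (a b : ℤ) : Continuous (ch a b) := by
  unfold ch
  exact ((fourier a).continuous.comp continuous_fst).mul ((fourier b).continuous.comp continuous_snd)

theorem ch_phi (a c : ℤ) (z : T1 × T1) : ch (a - c) (-c) z = ch a c (z.1, -z.1 - z.2) := by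
  simp only [ch, fourier_apply]
  rw [← Circle.coe_mul, ← Circle.coe_mul, ← AddCircle.toCircle_add, ← AddCircle.toCircle_add]
  congr 2
  module

theorem ch_phi2 (b c : ℤ) (z : T1 × T1) : ch (-c) (b - c) z = ch b c (z.2, -z.1 - z.2) := by
  simp only [ch, fourier_apply]
  rw [← Circle.coe_mul, ← Circle.coe_mul, ← AddCircle.toCircle_add, ← AddCircle.toCircle_add]
  congr 2
  module

/-- an integrable density whose image under `Φ` has a density is concentrated off the preimages of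
null sets -/
theorem null_image (h3 : D_UNI) {ν ν' : Measure (T1 × T1)} [IsFiniteMeasure ν] [IsFiniteMeasure ν']
    {G G' : T1 × T1 → ℂ} (hG : Measurable G) (hGi : Integrable G ν) (hGi' : Integrable G' ν')
    {Φ Ψ : T1 × T1 → T1 × T1} (hΦ : Measurable Φ) (hΨ : Measurable Ψ) (hΨΦ : ∀ z, Ψ (Φ z) = z)
    (hc : ∀ a b : ℤ, ∫ z, ch a b (Φ z) * G z ∂ν = ∫ z, ch a b z * G' z ∂ν')
    {D : Set (T1 × T1)} (hD : MeasurableSet D) (h0 : ν' D = 0) :
    ν ({z | G z ≠ 0} ∩ Φ ⁻¹' D) = 0 := by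
  have e1 : ∀ a b : ℤ, ∫ z, ch a b z * (G ∘ Ψ) z ∂(ν.map Φ) = ∫ z, ch a b z * G' z ∂ν' := by
    intro a b
    have hsm : AEStronglyMeasurable (fun z => ch a b z * (G ∘ Ψ) z) (ν.map Φ) :=
      ((ch_cont a b).measurable.mul (hG.comp hΨ)).aestronglyMeasurable
    rw [integral_map hΦ.aemeasurable hsm, ← hc a b]
    simp only [Function.comp_apply, hΨΦ]
  have hint : Integrable (G ∘ Ψ) (ν.map Φ) := by
    rw [integrable_map_measure (hG.comp hΨ).aestronglyMeasurable hΦ.aemeasurable]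
    have : (G ∘ Ψ) ∘ Φ = G := by
      funext z
      simp [hΨΦ]
    rw [this]
    exact hGi
  have e2 := h3 (ν.map Φ) ν' (G ∘ Ψ) G' hint hGi' e1
  have e3 : ∀ D', MeasurableSet D' → D' ⊆ D → ∫ z in Φ ⁻¹' D', G z ∂ν = 0 := by
    intro D' hD' hsub
    have h4 := e2 D' hD'
    have h5 : ν' D' = 0 := measure_mono_null hsub h0
    rw [Measure.restrict_eq_zero.mpr h5, integral_zero_measure,
      setIntegral_map hD' (hG.comp hΨ).aestronglyMeasurable hΦ.aemeasurable] at h4
    simpa only [Function.comp_apply, hΨΦ] using h4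
  have hae : G =ᵐ[ν.restrict (Φ ⁻¹' D)] 0 := by
    refine Integrable.ae_eq_zero_of_forall_setIntegral_eq_zero hGi.restrict ?_
    intro s hs _
    rw [Measure.restrict_restrict hs]
    have h6 : s ∩ Φ ⁻¹' D = Φ ⁻¹' (Ψ ⁻¹' s ∩ D) := by
      ext z
      simp [hΨΦ]
    rw [h6]
    exact e3 _ ((hΨ hs).inter hD) inter_subset_right
  have h7 : ν.restrict (Φ ⁻¹' D) {z | G z ≠ 0} = 0 := by
    have := hae
    rw [Filter.EventuallyEq, ae_iff] at this
    simpa using this
  have hms : MeasurableSet {z | G z ≠ 0} := hG (measurableSet_singleton (0 : ℂ)).compl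
  rwa [Measure.restrict_apply hms] at h7

theorem pf_ACP (h1 : D_QF) (h2 : D_RSZ) (h3 : D_UNI) : D_ACP := by
  intro σ₁ σ₂ σ₃ _ _ _ C₁₂ C₁₃ C₂₃ p₁ p₂ p₃ R hC12 hC13 hC23 hp1 hp2 hp3 hinv b12 b13 b23
  obtain ⟨G, hGm, hG2, hGC, hGi⟩ := h2 (σ₁.prod σ₂) C₁₂ (fun i => R i.1 i.2 0) hC12 (by
    intro s u
    rw [← h1 σ₁ σ₂ p₁ p₂ hp1 hp2 s u]
    exact b12 s u)
  obtain ⟨G₁₃, hGm3, hG23, -, hGi3⟩ := h2 (σ₁.prod σ₃) C₁₃ (fun i => R i.1 0 i.2) hC13 (by
    intro s u
    rw [← h1 σ₁ σ₃ p₁ p₃ hp1 hp3 s u]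
    exact b13 s u)
  obtain ⟨G₂₃, hGm23, hG223, -, hGi23⟩ := h2 (σ₂.prod σ₃) C₂₃ (fun i => R 0 i.1 i.2) hC23 (by
    intro s u
    rw [← h1 σ₂ σ₃ p₂ p₃ hp2 hp3 s u]
    exact b23 s u)
  have hGint : Integrable G (σ₁.prod σ₂) := hG2.integrable one_le_two
  have hG3int : Integrable G₁₃ (σ₁.prod σ₃) := hG23.integrable one_le_two
  have hG23int : Integrable G₂₃ (σ₂.prod σ₃) := hG223.integrable one_le_two
  have hneg : Measurable fun t : T1 => -t := measurable_neg
  have hfin : IsFiniteMeasure (σ₃.map (fun t : T1 => -t)) := inferInstance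
  refine ⟨G, hGm, hG2, hGC, ?_, ?_, ?_⟩
  · have h4 := hGi (0, 0)
    have h5 : ∀ z, ch 0 0 z = 1 := fun z => by simp [ch]
    simpa [h5] using h4
  · -- first projection
    have hΦ : Measurable fun z : T1 × T1 => ((z.1, -z.1 - z.2) : T1 × T1) := by fun_prop
    have hc : ∀ a b : ℤ, ∫ z, ch a b (z.1, -z.1 - z.2) * G z ∂(σ₁.prod σ₂) =
        ∫ z, ch a b z * G₁₃ z ∂(σ₁.prod σ₃) := by
      intro a c
      rw [hGi3 (a, c)]
      have h5 := hGi (a - c, -c)
      simp only [ch_phi] at h5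
      rw [h5]
      have h6 := hinv (a - c) (-c) 0 c
      simpa using h6.symm
    refine Measure.AbsolutelyContinuous.mk fun D hD h0 => ?_
    have hΨm : Measurable fun z : T1 × T1 => ((z.1, -z.2) : T1 × T1) := by fun_prop
    have h7 : (σ₁.prod σ₃) ((fun z : T1 × T1 => (z.1, -z.2)) ⁻¹' D) = 0 := by
      have e : σ₁.prod (σ₃.map (fun t : T1 => -t)) =
          (σ₁.prod σ₃).map (fun z : T1 × T1 => (z.1, -z.2)) := by
        have := Measure.map_prod_map σ₁ σ₃ measurable_id hneg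
        rw [Measure.map_id] at this
        exact this
      rw [e, Measure.map_apply hΨm hD] at h0
      exact h0
    have h8 := null_image h3 hGm hGint hG3int hΦ hΦ (fun z => by simp) hc (hΨm hD) h7
    have hm : Measurable fun z : T1 × T1 => ((z.1, z.1 + z.2) : T1 × T1) := by fun_prop
    rw [Measure.map_apply hm hD, Measure.restrict_apply (hm hD), Set.inter_comm]
    have e9 : (fun z : T1 × T1 => (z.1, z.1 + z.2)) ⁻¹' D =
        (fun z : T1 × T1 => (z.1, -z.1 - z.2)) ⁻¹' ((fun z : T1 × T1 => (z.1, -z.2)) ⁻¹' D) := by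
      ext z
      simp only [mem_preimage]
      have : -(-z.1 - z.2) = z.1 + z.2 := by abel
      rw [this]
    rw [e9]
    exact h8
  · -- second projection
    have hΦ : Measurable fun z : T1 × T1 => ((z.2, -z.1 - z.2) : T1 × T1) := by fun_prop
    have hΨ : Measurable fun z : T1 × T1 => ((-z.1 - z.2, z.1) : T1 × T1) := by fun_prop
    have hc : ∀ a b : ℤ, ∫ z, ch a b (z.2, -z.1 - z.2) * G z ∂(σ₁.prod σ₂) =
        ∫ z, ch a b z * G₂₃ z ∂(σ₂.prod σ₃) := by
      intro b c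
      rw [hGi23 (b, c)]
      have h5 := hGi (-c, b - c)
      simp only [ch_phi2] at h5
      rw [h5]
      have h6 := hinv (-c) (b - c) 0 c
      simpa using h6.symm
    refine Measure.AbsolutelyContinuous.mk fun D hD h0 => ?_
    have hΨm : Measurable fun z : T1 × T1 => ((z.1, -z.2) : T1 × T1) := by fun_prop
    have h7 : (σ₂.prod σ₃) ((fun z : T1 × T1 => (z.1, -z.2)) ⁻¹' D) = 0 := by
      have e : σ₂.prod (σ₃.map (fun t : T1 => -t)) =
          (σ₂.prod σ₃).map (fun z : T1 × T1 => (z.1, -z.2)) := by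
        have := Measure.map_prod_map σ₂ σ₃ measurable_id hneg
        rw [Measure.map_id] at this
        exact this
      rw [e, Measure.map_apply hΨm hD] at h0
      exact h0
    have h8 := null_image h3 hGm hGint hG23int hΦ hΨ (fun z => by
      ext
      · simp only
        abel
      · rfl) hc (hΨm hD) h7
    have hm : Measurable fun z : T1 × T1 => ((z.2, z.1 + z.2) : T1 × T1) := by fun_prop
    rw [Measure.map_apply hm hD, Measure.restrict_apply (hm hD), Set.inter_comm]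
    have e9 : (fun z : T1 × T1 => (z.2, z.1 + z.2)) ⁻¹' D =
        (fun z : T1 × T1 => (z.2, -z.1 - z.2)) ⁻¹' ((fun z : T1 × T1 => (z.1, -z.2)) ⁻¹' D) := by
      ext z
      simp only [mem_preimage]
      have : -(-z.1 - z.2) = z.1 + z.2 := by abel
      rw [this]
    rw [e9]
    exact h8

end Pool.Agent.H84.SS
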