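import Pool.Agent.H84.SS.Targets
import Pool.Agent.H85.RTX.Final

/-!
# Singular spectrum, row A_BIR: the pointwise ergodic theorem on ergodic systems
-/

set_option autoImplicit false

namespace Pool.Agent.H84.SS

open MeasureTheory Filter Topology Set ProbabilityTheory
open scoped ENNReal ComplexConjugate
open Pool.Agent.H85.RT (avg GoodWeight Good)
open Pool.Agent.H94.RTB (LGood PD)

universe u v

theorem pf_BIR : A_BIR.{v} := by
  intro Ω _ m _ S hS H C hm hb
  have hmp : MeasurePreserving S m m := hS.toMeasurePreserving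
  have hC : 0 ≤ C := by
    obtain ⟨ω⟩ : Nonempty Ω := (inferInstance : (ae m).NeBot).nonempty
    exact (norm_nonneg _).trans (hb ω)
  have hmem : MemLp H ⊤ m :=
    memLp_top_of_bound hm.aestronglyMeasurable C (Eventually.of_forall hb)
  set A : ℕ → Ω → ℂ := fun N ω => (∑ n ∈ Finset.Icc 1 N, H (S^[n] ω)) / (N : ℂ) with hA
  have hAm : ∀ N, Measurable (A N) := fun N =>
    (Finset.measurable_sum _ fun n _ => hm.comp (S.measurable.iterate n)).div_const _
  have hAb : ∀ N ω, ‖A N ω‖ ≤ C := by
    intro N ω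
    simp only [hA]
    rw [norm_div, Complex.norm_natCast]
    rcases Nat.eq_zero_or_pos N with h0 | h0
    · subst h0
      simpa using hC
    · have hN : (0 : ℝ) < N := by exact_mod_cast h0
      rw [div_le_iff₀ hN]
      refine (norm_sum_le _ _).trans ?_
      refine (Finset.sum_le_card_nsmul _ _ C fun n _ => hb _).trans ?_
      rw [Nat.card_Icc, nsmul_eq_mul]
      simp [mul_comm]
  have hconv : ∀ᵐ ω ∂m, ∃ l : ℂ, Tendsto (fun N => A N ω) atTop (𝓝 l) := by
    filter_upwards [Pool.Agent.H85.RTX.birkhoff_complex hmp hmem] with ω hω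
    exact hω.2
  -- the limit function
  obtain ⟨φ, hφm, hφ⟩ : ∃ φ : Ω → ℂ, Measurable φ ∧ ∀ᵐ ω ∂m, Tendsto (fun N => A N ω) atTop
      (𝓝 (φ ω)) :=
    measurable_limit_of_tendsto_metrizable_ae (fun N => (hAm N).aemeasurable) hconv
  -- invariance
  have hshift : ∀ ω, Tendsto (fun N => A N (S ω) - A N ω) atTop (𝓝 0) := by
    intro ω
    refine squeeze_zero_norm (a := fun N : ℕ => 2 * C / N) (fun N => ?_)
      (tendsto_const_div_atTop_nhds_zero_nat (2 * C))
    simp only [hA]
    rw [← sub_div, norm_div, Complex.norm_natCast]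
    refine div_le_div_of_nonneg_right ?_ (Nat.cast_nonneg _)
    have e : ∑ n ∈ Finset.Icc 1 N, H (S^[n] (S ω)) - ∑ n ∈ Finset.Icc 1 N, H (S^[n] ω) =
        H (S^[N + 1] ω) - H (S^[1] ω) := by
      induction N with
      | zero => simp
      | succ N ih =>
        rw [Finset.sum_Icc_succ_top (by omega), Finset.sum_Icc_succ_top (by omega)]
        have e1 : S^[N + 1] (S ω) = S^[N + 1 + 1] ω :=
          (Function.iterate_succ_apply S (N + 1) ω).symm
        rw [e1]
        linear_combination ih
    rw [e]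
    refine (norm_sub_le _ _).trans ?_
    linarith [hb (S^[N + 1] ω), hb (S^[1] ω)]
  have hinv : φ ∘ S =ᵐ[m] φ := by
    have h1 : ∀ᵐ ω ∂m, Tendsto (fun N => A N (S ω)) atTop (𝓝 (φ (S ω))) :=
      hmp.quasiMeasurePreserving.ae hφ
    filter_upwards [h1, hφ] with ω h2 h3
    have h4 := (h2.sub h3)
    have h5 := tendsto_nhds_unique h4 (hshift ω)
    simp only [Function.comp_apply]
    exact sub_eq_zero.mp h5
  obtain ⟨c, hc⟩ := hS.ae_eq_const_of_ae_eq_comp₀ hφm.nullMeasurable hinv
  -- the constant
  have hint : Tendsto (fun N : ℕ => ∫ ω, A N ω ∂m) atTop (𝓝 (∫ ω, φ ω ∂m)) :=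
    tendsto_integral_of_dominated_convergence (fun _ => C)
      (fun N => (hAm N).aestronglyMeasurable) (integrable_const C)
      (fun N => Eventually.of_forall fun ω => hAb N ω) hφ
  have hAi : ∀ N : ℕ, 1 ≤ N → ∫ ω, A N ω ∂m = ∫ ω, H ω ∂m := by
    intro N hN
    have hN0 : (N : ℂ) ≠ 0 := by
      have : N ≠ 0 := by omega
      exact_mod_cast this
    simp only [hA]
    rw [integral_div, integral_finsetSum _ fun n _ => ?_]
    · have e1 : ∀ n ∈ Finset.Icc 1 N, ∫ ω, H (S^[n] ω) ∂m = ∫ ω, H ω ∂m := by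
        intro n _
        have h1 := setIntegral_iter hmp (Q := univ) (by
          rw [MeasurableSpace.measurableSet_invariants]
          exact ⟨MeasurableSet.univ, rfl⟩) H n
        simpa only [Measure.restrict_univ] using h1
      rw [Finset.sum_congr rfl e1, Finset.sum_const, Nat.card_Icc, nsmul_eq_mul]
      simp only [Nat.add_sub_cancel]
      field_simp
    · exact Integrable.mono' (integrable_const C)
        (hm.comp (S.measurable.iterate n)).aestronglyMeasurable
        (Eventually.of_forall fun ω => hb _)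
  have hlim : ∫ ω, φ ω ∂m = ∫ ω, H ω ∂m := by
    refine tendsto_nhds_unique hint ?_
    refine tendsto_const_nhds.congr' ?_
    filter_upwards [eventually_ge_atTop 1] with N hN
    exact (hAi N hN).symm
  have hcv : c = ∫ ω, H ω ∂m := by
    rw [← hlim, integral_congr_ae hc]
    simp
  filter_upwards [hφ, hc] with ω h1 h2
  rw [h2] at h1
  simp only [Function.const_apply] at h1
  rw [hcv] at h1
  exact h1

end Pool.Agent.H84.SS
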