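import Pool.Agent.H31.BOU.All
import Pool.Agent.H17.SS.LIX

/-!
# Unweighted double recurrence averages converge: the theorem of Bourgain for bounded functions
-/

set_option autoImplicit false

namespace Pool.Agent.H84.SS

open MeasureTheory Filter Topology Set
open Pool.Agent.H85.RT (avg GoodWeight)

universe u

theorem dr_all (X : Type u) [MeasurableSpace X] (μ : Measure X) [IsProbabilityMeasure μ]
    (T : X ≃ᵐ X) (hT : MeasurePreserving T μ μ) : DR μ T := by
  intro f g hf hg hf1 hg1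
  filter_upwards [Pool.Agent.H31.BOU.c_BOU X μ T f g hT hf hg hf1 hg1] with x hx
  obtain ⟨l, hl⟩ := hx
  refine ⟨l, hl.congr fun N => ?_⟩
  simp only [avg, Pool.Agent.H31.BOU.AX, mul_one]

theorem gw_one : GoodWeight.{u} (fun _ => 1) := by
  intro X _ μ _ T hT f g hf hg
  obtain ⟨C, f', hC, hfm, hf1, hfe⟩ := Pool.Agent.H17.SS.pf_LIX X μ T hT f hf
  obtain ⟨D, g', hD, hgm, hg1, hge⟩ := Pool.Agent.H17.SS.pf_LIX X μ T hT g hg
  filter_upwards [dr_all X μ T hT f' g' hfm hgm hf1 hg1, hfe, hge] with x hx hfx hgx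
  obtain ⟨l, hl⟩ := hx
  refine ⟨(C : ℂ) * D * l, (hl.const_mul ((C : ℂ) * D)).congr fun N => ?_⟩
  simp only [avg, mul_one]
  rw [← mul_div_assoc, Finset.mul_sum]
  congr 1
  refine Finset.sum_congr rfl fun n _ => ?_
  rw [(hfx n).1, (hgx n).2]
  ring

end Pool.Agent.H84.SS
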