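import Pool.Agent.H84.SS.Targets

/-!
# Singular spectrum, rows M_CTS and D_DTF
-/

set_option autoImplicit false

namespace Pool.Agent.H84.SS

open MeasureTheory Filter Topology Set ProbabilityTheory
open scoped ENNReal ComplexConjugate
open Pool.Agent.H85.RT (avg GoodWeight Good)
open Pool.Agent.H94.RTB (LGood PD)

universe u v

theorem pf_CTS : M_CTS.{u} := by
  intro X _ μ ι _ F G hF hG hle
  obtain ⟨D, hDc, hDd⟩ := TopologicalSpace.exists_countable_dense (ι → ℂ)
  have h1 : ∀ᵐ x ∂μ, ∀ u ∈ D, F x u ≤ G x u := (ae_ball_iff hDc).mpr fun u _ => hle u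
  filter_upwards [h1] with x hx u
  have hcl : IsClosed {u | F x u ≤ G x u} := isClosed_le (hF x) (hG x)
  have hsub : closure D ⊆ {u | F x u ≤ G x u} := hcl.closure_subset_iff.mpr fun v hv => hx v hv
  rw [hDd.closure_eq] at hsub
  exact hsub (mem_univ u)

theorem pf_DTF (h : D_DET) : D_DTF := by
  intro C₁₂ C₁₃ C₂₃ p₁ p₂ p₃ r σ _ h12 h13 h23 ht hσ hs hp1 hp3
  refine h C₁₂ C₂₃ C₁₃ p₂ p₁ p₃ (fun b a c => r a b c) σ h12 h23 h13 ?_ hσ hs hp1 hp3
  refine ⟨fun a b c => ht.inv b a c, ?_, ?_, ?_⟩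
  · intro c s u
    have hinj : Function.Injective (Prod.swap : ℕ × ℕ → ℕ × ℕ) := Prod.swap_injective
    have h1 := ht.b12 c (s.map ⟨Prod.swap, hinj⟩) (fun i => u i.swap)
    have e1 : ∑ i ∈ s.map ⟨Prod.swap, hinj⟩, u i.swap * r i.1 i.2 c =
        ∑ i ∈ s, u i * r i.2 i.1 c := by
      rw [Finset.sum_map]
      rfl
    have e2 : qf p₁ p₂ (s.map ⟨Prod.swap, hinj⟩) (fun i => u i.swap) = qf p₂ p₁ s u := by
      unfold qf
      rw [Finset.sum_map]
      refine Finset.sum_congr rfl fun i _ => ?_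
      rw [Finset.sum_map]
      refine Finset.sum_congr rfl fun j _ => ?_
      simp only [Function.Embedding.coeFn_mk, Prod.swap_swap, Prod.fst_swap, Prod.snd_swap]
      ring
    rw [e1, e2] at h1
    exact h1
  · intro b s u
    exact ht.b23 b s u
  · intro a s u
    exact ht.b13 a s u

end Pool.Agent.H84.SS
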