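import Pool.Agent.H84.SS.Targets

/-!
# Singular spectrum, row D_DET: the deterministic lemma
-/

set_option autoImplicit false

namespace Pool.Agent.H84.SS

open MeasureTheory Filter Topology Set ProbabilityTheory
open scoped ENNReal ComplexConjugate
open Pool.Agent.H85.RT (avg GoodWeight Good)
open Pool.Agent.H94.RTB (LGood PD)

theorem atoms_countable (σ : Measure T1) [IsFiniteMeasure σ] : (atoms σ).Countable := by
  have h := Measure.countable_meas_pos_of_disjoint_iUnion (μ := σ) (As := fun t : T1 => ({t} : Set T1))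
    (fun t => measurableSet_singleton t) (fun i j hij => by
      simpa [Function.onFun] using hij)
  refine h.mono fun t ht => ?_
  exact pos_iff_ne_zero.mpr ht

theorem atoms_meas (σ : Measure T1) [IsFiniteMeasure σ] : MeasurableSet (atoms σ) :=
  (atoms_countable σ).measurableSet

theorem pf_DET (h1 : D_EXT) (h2 : D_ACP) (h3 : Pool.Agent.H94.RTB.T_HER) : D_DET := by
  intro C₁₂ C₁₃ C₂₃ p₁ p₂ p₃ r σ _ hC12 hC13 hC23 htrip hσ hsing hp2 hp3
  obtain ⟨σ₂, hf2, hσ2⟩ := h3 p₂ hp2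
  obtain ⟨σ₃, hf3, hσ3⟩ := h3 p₃ hp3
  obtain ⟨R, hR0, hRi, b12, b13, b23⟩ := h1 C₁₂ C₁₃ C₂₃ p₁ p₂ p₃ r htrip
  obtain ⟨G, hGm, hG2, hGC, hG0, hA1, hA2⟩ := h2 σ σ₂ σ₃ C₁₂ C₁₃ C₂₃ p₁ p₂ p₃ R hC12 hC13 hC23
    hσ hσ2 hσ3 hRi b12 b13 b23
  set A := atoms σ with hA
  have hAm : MeasurableSet A := atoms_meas σ
  set α := σ.restrict Aᶜ with hα
  set γ := σ₃.map (fun t : T1 => -t) with hγ
  have hγf : IsFiniteMeasure γ := inferInstance
  set E : Set (T1 × T1) := {z | G z ≠ 0} with hE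
  have hEm : MeasurableSet E := hGm (measurableSet_singleton (0 : ℂ)).compl
  have hprod : α.prod σ₂ = (σ.prod σ₂).restrict (Aᶜ ×ˢ univ) := by
    rw [← Measure.prod_restrict, Measure.restrict_univ]
  have hprod' : α.prod γ = (σ.prod γ).restrict (Aᶜ ×ˢ univ) := by
    rw [← Measure.prod_restrict, Measure.restrict_univ]
  have hm1 : Measurable fun z : T1 × T1 => ((z.1, z.1 + z.2) : T1 × T1) := by fun_prop
  have hm2 : Measurable fun z : T1 × T1 => ((z.2, z.1 + z.2) : T1 × T1) := by fun_prop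
  have hle : (α.prod σ₂).restrict E ≤ (σ.prod σ₂).restrict E := by
    rw [hprod]
    exact Measure.restrict_mono_measure Measure.restrict_le_self E
  have hH1 : ((α.prod σ₂).restrict E).map (fun z => (z.1, z.1 + z.2)) ≪ α.prod γ := by
    refine Measure.AbsolutelyContinuous.mk fun D hD h0 => ?_
    rw [hprod', Measure.restrict_apply hD] at h0
    have h4 := hA1 h0
    rw [Measure.map_apply hm1 (hD.inter (hAm.compl.prod MeasurableSet.univ)),
      Measure.restrict_apply (hm1 (hD.inter (hAm.compl.prod MeasurableSet.univ)))] at h4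
    rw [Measure.map_apply hm1 hD, Measure.restrict_apply (hm1 hD), hprod,
      Measure.restrict_apply ((hm1 hD).inter hEm)]
    refine measure_mono_null ?_ h4
    rintro z ⟨⟨hz1, hz2⟩, hz3⟩
    exact ⟨⟨hz1, hz3.1, mem_univ _⟩, hz2⟩
  have hH2 : ((α.prod σ₂).restrict E).map (fun z => (z.2, z.1 + z.2)) ≪ σ₂.prod γ :=
    ((Measure.map_mono hle hm2).absolutelyContinuous).trans hA2
  have hat : ∀ s, α {s} = 0 := by
    intro s
    rw [hα, Measure.restrict_apply (measurableSet_singleton s)]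
    by_cases hs : s ∈ A
    · have : {s} ∩ Aᶜ = (∅ : Set T1) := by
        ext t
        simp only [mem_inter_iff, mem_singleton_iff, mem_compl_iff, mem_empty_iff_false, iff_false,
          not_and, not_not]
        rintro rfl
        exact hs
      rw [this, measure_empty]
    · have h5 : σ {s} = 0 := by
        by_contra hc
        exact hs hc
      exact measure_mono_null inter_subset_left h5
  have hαs : α ⟂ₘ (volume : Measure T1) := hsing.mono_ac
    (Measure.absolutelyContinuous_of_le Measure.restrict_le_self) Measure.AbsolutelyContinuous.rfl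
  have h0 := host_lemma hEm hH1 hH2 hat hαs
  rw [hprod, Measure.restrict_apply hEm] at h0
  -- the integral of G is the integral over A × univ
  have hGint : Integrable G (σ.prod σ₂) := hG2.integrable one_le_two
  have hAu : MeasurableSet (A ×ˢ (univ : Set T1)) := hAm.prod MeasurableSet.univ
  have e1 : ∫ z, G z ∂(σ.prod σ₂) = ∫ z in A ×ˢ (univ : Set T1), G z ∂(σ.prod σ₂) := by
    rw [← integral_indicator hAu]
    refine integral_congr_ae ?_
    have : ∀ᵐ z ∂(σ.prod σ₂), ¬ (z ∈ E ∩ Aᶜ ×ˢ univ) := measure_eq_zero_iff_ae_notMem.mp h0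
    filter_upwards [this] with z hz
    by_cases hzA : z ∈ A ×ˢ (univ : Set T1)
    · rw [indicator_of_mem hzA]
    · rw [indicator_of_notMem hzA]
      by_contra hne
      apply hz
      refine ⟨hne, ?_, mem_univ _⟩
      intro hzA'
      exact hzA ⟨hzA', mem_univ _⟩
  -- Cauchy-Schwarz
  have hGn : Integrable (fun z => ‖G z‖ ^ 2) (σ.prod σ₂) := by
    have := hG2.integrable_norm_pow (by norm_num)
    simpa using this
  have hcs : (∫ z in A ×ˢ (univ : Set T1), ‖G z‖ ∂(σ.prod σ₂)) ^ 2 ≤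
      (∫ z, ‖G z‖ ^ 2 ∂(σ.prod σ₂)) * (σ.prod σ₂).real (A ×ˢ univ) := by
    set ν := (σ.prod σ₂).restrict (A ×ˢ (univ : Set T1)) with hν
    have hI : ∫ z, ‖G z‖ ^ 2 ∂ν ≤ ∫ z, ‖G z‖ ^ 2 ∂(σ.prod σ₂) :=
      setIntegral_le_integral hGn (Eventually.of_forall fun z => by positivity)
    set a := ∫ z, ‖G z‖ ∂ν with ha
    set M := ν.real univ with hM
    have hMe : M = (σ.prod σ₂).real (A ×ˢ univ) := by
      rw [hM, hν, measureReal_restrict_apply_univ]
    have hM0 : 0 ≤ M := measureReal_nonneg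
    have hn1 : Integrable (fun z => ‖G z‖) ν := hGint.norm.restrict
    have hn2 : Integrable (fun z => ‖G z‖ ^ 2) ν := hGn.restrict
    have hkey : ∀ c : ℝ, 0 ≤ ∫ z, ‖G z‖ ^ 2 ∂ν - 2 * c * a + c ^ 2 * M := by
      intro c
      have h6 : 0 ≤ ∫ z, (‖G z‖ - c) ^ 2 ∂ν := integral_nonneg fun z => by positivity
      have h7 : ∫ z, (‖G z‖ - c) ^ 2 ∂ν = ∫ z, ‖G z‖ ^ 2 ∂ν - 2 * c * a + c ^ 2 * M := by
        have e2 : ∀ z, (‖G z‖ - c) ^ 2 = ‖G z‖ ^ 2 - 2 * c * ‖G z‖ + c ^ 2 := fun z => by ring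
        simp only [e2]
        have hi1 : Integrable (fun z => 2 * c * ‖G z‖) ν := hn1.const_mul _
        have hi2 : Integrable (fun z => ‖G z‖ ^ 2 - 2 * c * ‖G z‖) ν := hn2.sub hi1
        rw [integral_add hi2 (integrable_const _), integral_sub hn2 hi1, integral_const_mul,
          integral_const, smul_eq_mul, ← hM]
        ring
      rw [← h7]
      exact h6
    rw [← hMe]
    have h8 : a ^ 2 ≤ (∫ z, ‖G z‖ ^ 2 ∂ν) * M := by
      rcases hM0.eq_or_lt with h9 | h9
      · have h10 : ν = 0 := by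
          have : ν univ = 0 := by
            have h11 : ν.real univ = 0 := by rw [← hM, ← h9]
            rw [Measure.real] at h11
            rcases (ENNReal.toReal_eq_zero_iff _).mp h11 with h12 | h12
            · exact h12
            · exact absurd h12 (measure_ne_top _ _)
          exact Measure.measure_univ_eq_zero.mp this
        have : a = 0 := by rw [ha, h10, integral_zero_measure]
        rw [this, ← h9]
        simp
      · have h10 := hkey (a / M)
        have h11 : ∫ z, ‖G z‖ ^ 2 ∂ν - 2 * (a / M) * a + (a / M) ^ 2 * M =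
            ∫ z, ‖G z‖ ^ 2 ∂ν - a ^ 2 / M := by
          field_simp
          ring
        rw [h11] at h10
        have h12 : a ^ 2 / M ≤ ∫ z, ‖G z‖ ^ 2 ∂ν := by linarith
        rwa [div_le_iff₀ h9] at h12
    exact h8.trans (mul_le_mul_of_nonneg_right hI hM0)
  have hnorm : ‖r 0 0 0‖ ≤ ∫ z in A ×ˢ (univ : Set T1), ‖G z‖ ∂(σ.prod σ₂) := by
    rw [← hR0, ← hG0, e1]
    exact norm_integral_le_integral_norm _
  have hmass : (σ.prod σ₂).real (A ×ˢ univ) = σ.real A * (p₂ 0).re := by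
    have h5 : p₂ 0 = (σ₂.real univ : ℂ) := by
      rw [← hσ2 0]
      simp
    rw [h5, Complex.ofReal_re, measureReal_prod_prod]
  have hmass0 : 0 ≤ (σ.prod σ₂).real (A ×ˢ univ) := measureReal_nonneg
  calc ‖r 0 0 0‖ ^ 2 ≤ (∫ z in A ×ˢ (univ : Set T1), ‖G z‖ ∂(σ.prod σ₂)) ^ 2 := by
        gcongr
    _ ≤ (∫ z, ‖G z‖ ^ 2 ∂(σ.prod σ₂)) * (σ.prod σ₂).real (A ×ˢ univ) := hcs
    _ ≤ C₁₂ * (σ.prod σ₂).real (A ×ˢ univ) := mul_le_mul_of_nonneg_right hGC hmass0
    _ = C₁₂ * (σ.real A * (p₂ 0).re) := by rw [hmass]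

end Pool.Agent.H84.SS
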