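import Pool.Agent.H84.SS.Targets

/-!
# Singular spectrum, row M_SQC
-/

set_option autoImplicit false

namespace Pool.Agent.H84.SS

open MeasureTheory Filter Topology Set ProbabilityTheory
open scoped ENNReal ComplexConjugate
open Pool.Agent.H85.RT (avg GoodWeight Good)
open Pool.Agent.H94.RTB (LGood PD)

universe u v

/-- the square of a finite combination as a double sum -/
theorem sq_expand {ι : Type*} (s : Finset ι) (z : ι → ℂ) :
    ((‖∑ i ∈ s, z i‖ ^ 2 : ℝ) : ℂ) = ∑ i ∈ s, ∑ j ∈ s, z i * conj (z j) := by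
  have h : ((‖∑ i ∈ s, z i‖ ^ 2 : ℝ) : ℂ) = (∑ i ∈ s, z i) * conj (∑ i ∈ s, z i) := by
    rw [Complex.mul_conj, Complex.normSq_eq_norm_sq]
  rw [h, map_sum]
  exact Finset.sum_mul_sum _ _ _ _

theorem pf_SQC : M_SQC.{u} := by
  intro X _ μ _ T f g hDR s u
  have h1 : ∀ᵐ x ∂μ, ∀ b b' c c' : ℕ, ∃ l : ℂ,
      Tendsto (fun N => avg T (fp T f b b') (fp T.symm g c c') (fun _ => 1) N x) atTop (𝓝 l) :=
    ae_all_iff.mpr fun b => ae_all_iff.mpr fun b' => ae_all_iff.mpr fun c =>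
      ae_all_iff.mpr fun c' => hDR b b' c c'
  filter_upwards [h1] with x hx
  choose l hl using hx
  refine ⟨(∑ i ∈ s, ∑ j ∈ s, (u i * conj (u j)) * l i.1 j.1 i.2 j.2).re, ?_⟩
  have h2 : Tendsto (fun M : ℕ => ∑ i ∈ s, ∑ j ∈ s, (u i * conj (u j)) *
      avg T (fp T f i.1 j.1) (fp T.symm g i.2 j.2) (fun _ => 1) M x) atTop
      (𝓝 (∑ i ∈ s, ∑ j ∈ s, (u i * conj (u j)) * l i.1 j.1 i.2 j.2)) :=
    tendsto_finsetSum _ fun i _ => tendsto_finsetSum _ fun j _ => (hl _ _ _ _).const_mul _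
  have h3 := (Complex.continuous_re.tendsto _).comp h2
  refine h3.congr fun M => ?_
  simp only [Function.comp_apply]
  have e : (∑ i ∈ s, ∑ j ∈ s, (u i * conj (u j)) *
      avg T (fp T f i.1 j.1) (fp T.symm g i.2 j.2) (fun _ => 1) M x) =
      (((∑ n ∈ Finset.Icc 1 M,
        ‖∑ i ∈ s, u i * (f (T^[n + i.1] x) * g (T.symm^[n + i.2] x))‖ ^ 2) / M : ℝ) : ℂ) := by
    push_cast
    have e1 : ∀ n : ℕ, ((‖∑ i ∈ s, u i * (f (T^[n + i.1] x) * g (T.symm^[n + i.2] x))‖ : ℂ)) ^ 2 =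
        ∑ i ∈ s, ∑ j ∈ s, (u i * conj (u j)) * (fp T f i.1 j.1 (T^[n] x) *
          fp T.symm g i.2 j.2 (T.symm^[n] x)) := by
      intro n
      have e2 := sq_expand s (fun i => u i * (f (T^[n + i.1] x) * g (T.symm^[n + i.2] x)))
      push_cast at e2
      rw [e2]
      refine Finset.sum_congr rfl fun i _ => Finset.sum_congr rfl fun j _ => ?_
      simp only [fp, map_mul, ← Function.iterate_add_apply]
      rw [Nat.add_comm n i.1, Nat.add_comm n i.2, Nat.add_comm n j.1, Nat.add_comm n j.2]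
      ring
    simp only [e1]
    rw [Finset.sum_comm (s := Finset.Icc 1 M) (t := s), Finset.sum_div]
    refine Finset.sum_congr rfl fun i _ => ?_
    rw [Finset.sum_comm (s := Finset.Icc 1 M) (t := s), Finset.sum_div]
    refine Finset.sum_congr rfl fun j _ => ?_
    unfold avg
    rw [← mul_div_assoc, Finset.mul_sum]
    congr 1
    refine Finset.sum_congr rfl fun n _ => ?_
    ring
  rw [e, Complex.ofReal_re]

end Pool.Agent.H84.SS
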