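import Pool.Agent.H84.SS.Targets
import Pool.Agent.H84.SS.SQC

/-!
# Singular spectrum, row A_SPC: spectral measures
-/

set_option autoImplicit false

namespace Pool.Agent.H84.SS

open MeasureTheory Filter Topology Set ProbabilityTheory
open scoped ENNReal ComplexConjugate
open Pool.Agent.H85.RT (avg GoodWeight Good)
open Pool.Agent.H94.RTB (LGood PD)

universe u v

theorem int_shift {Ω : Type v} [MeasurableSpace Ω] {m : Measure Ω} {S : Ω ≃ᵐ Ω}
    (hS : MeasurePreserving S m m) (h : Ω → ℂ) (a b k : ℕ) :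
    ∫ ω, h (S^[a + k] ω) * conj (h (S^[b + k] ω)) ∂m =
      ∫ ω, h (S^[a] ω) * conj (h (S^[b] ω)) ∂m := by
  have h1 := setIntegral_iter hS (Q := univ) (by
    rw [MeasurableSpace.measurableSet_invariants]
    exact ⟨MeasurableSet.univ, rfl⟩) (fun ω => h (S^[a] ω) * conj (h (S^[b] ω))) k
  simp only [Measure.restrict_univ, ← Function.iterate_add_apply] at h1
  exact h1

/-- the correlation sequence on the integers -/
noncomputable def gz {Ω : Type v} [MeasurableSpace Ω] (m : Measure Ω) (S : Ω → Ω) (h : Ω → ℂ)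
    (n : ℤ) : ℂ :=
  ∫ ω, h (S^[n.toNat] ω) * conj (h (S^[(-n).toNat] ω)) ∂m

theorem gz_sub {Ω : Type v} [MeasurableSpace Ω] {m : Measure Ω} {S : Ω ≃ᵐ Ω}
    (hS : MeasurePreserving S m m) (h : Ω → ℂ) (a b : ℕ) :
    gz m S h ((a : ℤ) - b) = ∫ ω, h (S^[a] ω) * conj (h (S^[b] ω)) ∂m := by
  unfold gz
  rcases le_total b a with hab | hab
  · have e1 : ((a : ℤ) - b).toNat = a - b := by omega
    have e2 : (-((a : ℤ) - b)).toNat = 0 := by omega
    rw [e1, e2]
    have := int_shift hS h (a - b) 0 b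
    rw [Nat.sub_add_cancel hab, Nat.zero_add] at this
    exact this.symm
  · have e1 : ((a : ℤ) - b).toNat = 0 := by omega
    have e2 : (-((a : ℤ) - b)).toNat = b - a := by omega
    rw [e1, e2]
    have := int_shift hS h 0 (b - a) a
    rw [Nat.sub_add_cancel hab, Nat.zero_add] at this
    exact this.symm

theorem gz_PD {Ω : Type v} [MeasurableSpace Ω] {m : Measure Ω} [IsProbabilityMeasure m] {S : Ω ≃ᵐ Ω}
    (hS : MeasurePreserving S m m) {h : Ω → ℂ} {C : ℝ} (hm : Measurable h)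
    (hb : ∀ ω, ‖h ω‖ ≤ C) : PD (gz m S h) := by
  intro s c
  obtain ⟨K, hK⟩ : ∃ K : ℕ, ∀ i ∈ s, 0 ≤ i + K := by
    refine ⟨∑ i ∈ s, i.natAbs, fun i hi => ?_⟩
    have h1 : i.natAbs ≤ ∑ i ∈ s, i.natAbs :=
      Finset.single_le_sum (f := fun i : ℤ => i.natAbs) (fun _ _ => Nat.zero_le _) hi
    omega
  refine ⟨∫ ω, ‖∑ i ∈ s, c i * h (S^[(i + K).toNat] ω)‖ ^ 2 ∂m,
    integral_nonneg fun ω => by positivity, ?_⟩
  have hint : ∀ i j : ℤ, Integrable (fun ω => c i * h (S^[(i + K).toNat] ω) *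
      conj (c j * h (S^[(j + K).toNat] ω))) m := by
    intro i j
    refine Integrable.mono' (integrable_const (‖c i‖ * C * (‖c j‖ * C))) ?_
      (Eventually.of_forall fun ω => ?_)
    · refine (Measurable.mul ?_ ?_).aestronglyMeasurable
      · exact measurable_const.mul (hm.comp (S.measurable.iterate _))
      · exact Complex.continuous_conj.measurable.comp
          (measurable_const.mul (hm.comp (S.measurable.iterate _)))
    · rw [norm_mul, RCLike.norm_conj, norm_mul, norm_mul]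
      have hC : 0 ≤ C := (norm_nonneg _).trans (hb ω)
      gcongr
      · exact hb _
      · exact hb _
  have e1 : ((∫ ω, ‖∑ i ∈ s, c i * h (S^[(i + K).toNat] ω)‖ ^ 2 ∂m : ℝ) : ℂ) =
      ∑ i ∈ s, ∑ j ∈ s, ∫ ω, c i * h (S^[(i + K).toNat] ω) *
        conj (c j * h (S^[(j + K).toNat] ω)) ∂m := by
    rw [← integral_complex_ofReal]
    have e2 : ∀ ω, (((‖∑ i ∈ s, c i * h (S^[(i + K).toNat] ω)‖ ^ 2 : ℝ)) : ℂ) =
        ∑ i ∈ s, ∑ j ∈ s, c i * h (S^[(i + K).toNat] ω) *
          conj (c j * h (S^[(j + K).toNat] ω)) := fun ω => sq_expand s _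
    calc ∫ ω, (((‖∑ i ∈ s, c i * h (S^[(i + K).toNat] ω)‖ ^ 2 : ℝ)) : ℂ) ∂m
        = ∫ ω, ∑ i ∈ s, ∑ j ∈ s, c i * h (S^[(i + K).toNat] ω) *
          conj (c j * h (S^[(j + K).toNat] ω)) ∂m := integral_congr_ae (Eventually.of_forall e2)
      _ = _ := by
          rw [integral_finsetSum _ fun i _ => integrable_finsetSum _ fun j _ => hint i j]
          refine Finset.sum_congr rfl fun i _ => ?_
          rw [integral_finsetSum _ fun j _ => hint i j]
  rw [e1]
  refine Finset.sum_congr rfl fun i hi => Finset.sum_congr rfl fun j hj => ?_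
  have e3 : i - j = (((i + K).toNat : ℤ)) - ((j + K).toNat : ℤ) := by
    have h1 := hK i hi
    have h2 := hK j hj
    omega
  rw [e3, gz_sub hS h, ← integral_const_mul]
  refine integral_congr_ae (Eventually.of_forall fun ω => ?_)
  simp only [map_mul]
  ring

theorem pf_SPC (h : Pool.Agent.H94.RTB.T_HER) : A_SPC.{v} := by
  intro Ω _ m _ S hS H C hm hb
  obtain ⟨σ, hf, hσ⟩ := h (gz m S H) (gz_PD hS hm hb)
  refine ⟨σ, hf, fun n => ?_⟩
  rw [hσ n]
  unfold gz
  have e1 : ((n : ℤ)).toNat = n := by omega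
  have e2 : (-(n : ℤ)).toNat = 0 := by omega
  rw [e1, e2]
  rfl

end Pool.Agent.H84.SS
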