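import Pool.Agent.H84.SS.ACP
import Pool.Agent.H84.SS.DET
import Pool.Agent.H84.SS.CTS
import Pool.Agent.H84.SS.SQC
import Pool.Agent.H84.SS.LIM
import Pool.Agent.H84.SS.SPC
import Pool.Agent.H84.SS.BIR
import Pool.Agent.H94.SS.ATM
import Pool.Agent.H94.SS.WGD
import Pool.Agent.H94.SS.EXT
import Pool.Agent.H60.SS.CAU
import Pool.Agent.H60.SS.SQA
import Pool.Agent.H81.SS.EIG
import Pool.Agent.H81.SS.THW
import Pool.Agent.H81.SS.CSR
import Pool.Agent.H35.SS.FIN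
import Pool.Agent.H17.SS.LIX
import Pool.Agent.H17.SS.B13
import Pool.Agent.H73.SS.SML
import Pool.Agent.H10.SS.THX
import Pool.Agent.H10.SS.B12
import Pool.Agent.H14.SS.QF
import Pool.Agent.H14.SS.PDP
import Pool.Agent.H1.SS.RSZ
import Pool.Agent.H1.SS.STO
import Pool.Agent.H43.SS.UNI
import Pool.Agent.H43.SS.MXW
import Pool.Agent.H43.SS.WKL
import Pool.Agent.H97.SS.B23
import Pool.Agent.H97.SS.PFE
import Pool.Agent.H89.SS.INV
import Pool.Agent.H50.SS.MEP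
import Pool.Agent.H50.SS.SQB
import Pool.Agent.H7.SS.SQD
import Pool.Agent.H94.RTB.ATM
import Pool.Agent.H94.RTB.HER
import Pool.Agent.H94.RTB.MEG
import Pool.Agent.H94.RTB.PRD
import Pool.Agent.H94.RTB.RT
import Pool.Agent.H94.RTB.RTT
import Pool.Agent.H94.RTB.WIE
import Pool.Agent.H35.RTB.DEC
import Pool.Agent.H35.RTB.ZG
import Pool.Agent.H17.RTB.EIG
import Pool.Agent.H14.SS.AEI
import Pool.Agent.H14.SS.MXF
import Pool.Agent.H94.RTB.CORE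
import Pool.Agent.H14.RTB.SEL
import Pool.Agent.H14.RTB.PAIR
import Pool.Agent.H43.RTB.R_L2
import Pool.Agent.H44.RTB.ORT
import Pool.Agent.H36.SS.PDX
import Pool.Agent.H84.SS.Bou

/-!
# Return times for double recurrence, singular spectrum: all rows together
-/

set_option autoImplicit false

namespace Pool.Agent.H84.SS

open MeasureTheory Filter Topology Set ProbabilityTheory
open scoped ENNReal ComplexConjugate

universe u v

theorem all_HER : Pool.Agent.H94.RTB.T_HER := Pool.Agent.H94.RTB.HG.pf_HER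

theorem all_CORE : Pool.Agent.H94.RTB.T_CORE.{u} :=
  Pool.Agent.H94.RTB.CORE.pf_CORE Pool.Agent.H14.RTB.pf_SEL Pool.Agent.H14.RTB.pf_PAIR
    Pool.Agent.H43.RTB.pf_L2 (Pool.Agent.H44.RTB.pf_ORT Pool.Agent.H14.RTB.pf_PAIR)

theorem all_RT : Pool.Agent.H94.RTB.T_RT.{u, v} :=
  Pool.Agent.H94.RTB.pf_RT all_CORE
    (Pool.Agent.H35.RTB.ZG.pf_ZG Pool.Agent.H94.RTB.PRD.pf_PRD)
    (Pool.Agent.H35.RTB.pf_DEC all_HER Pool.Agent.H94.RTB.WIE.pf_WIE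
      (Pool.Agent.H94.RTB.MEG.pf_MEG Pool.Agent.H17.RTB.pf_EIG))
    Pool.Agent.H17.RTB.pf_EIG

theorem all_RTT : Pool.Agent.H94.RTB.T_RTT.{u, v} :=
  Pool.Agent.H94.RTB.pf_RTT all_RT

theorem all_RATM : Pool.Agent.H94.RTB.T_ATM.{v} :=
  Pool.Agent.H94.RTB.ATM.pf_ATM (Pool.Agent.H94.RTB.MEG.pf_MEG Pool.Agent.H17.RTB.pf_EIG)

theorem all_DET : D_DET :=
  pf_DET Pool.Agent.H94.SS.pf_EXT
    (pf_ACP Pool.Agent.H14.SS.pf_QF Pool.Agent.H1.SS.pf_RSZ Pool.Agent.H43.SS.pf_UNI) all_HER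

theorem all_PFE : M_PFE.{u} := Pool.Agent.H97.SS.pf_PFE

theorem all_SQD : M_SQD.{u} := Pool.Agent.H7.SS.pf_SQD Pool.Agent.H50.SS.pf_MEP all_PFE

theorem all_B12 : M_B12.{u} :=
  Pool.Agent.H10.SS.pf_B12 Pool.Agent.H81.SS.CSR.pf_CSR Pool.Agent.H60.SS.pf_SQA
    Pool.Agent.H50.SS.pf_SQB Pool.Agent.H14.SS.pf_AEI pf_CTS all_PFE

theorem all_B13 : M_B13.{u} :=
  Pool.Agent.H17.SS.pf_B13 Pool.Agent.H81.SS.CSR.pf_CSR Pool.Agent.H60.SS.pf_SQA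
    Pool.Agent.H50.SS.pf_SQB Pool.Agent.H14.SS.pf_AEI pf_CTS all_PFE

theorem all_B23 : M_B23.{u} :=
  Pool.Agent.H97.SS.pf_B23 Pool.Agent.H81.SS.CSR.pf_CSR pf_SQC all_SQD Pool.Agent.H14.SS.pf_AEI
    pf_CTS all_PFE

theorem all_LIM : M_LIM.{u} := pf_LIM Pool.Agent.H43.SS.pf_WKL

theorem all_PDX : M_PDX.{u} := Pool.Agent.H36.SS.pf_PDX all_PFE pf_CTS

theorem all_MXW : M_MXW.{u} :=
  Pool.Agent.H43.SS.pf_MXW Pool.Agent.H1.SS.pf_STO all_LIM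
    Pool.Agent.H89.SS.pf_INV all_B12 all_B13 all_B23 all_PDX all_PFE all_DET

theorem all_MXF : M_MXF.{u} :=
  Pool.Agent.H14.SS.pf_MXF Pool.Agent.H1.SS.pf_STO all_LIM
    Pool.Agent.H89.SS.pf_INV all_B12 all_B13 all_B23 all_PDX Pool.Agent.H14.SS.pf_PDP
    (pf_DTF all_DET)

theorem all_WGD : A_WGD.{u, v} := Pool.Agent.H94.SS.pf_WGD pf_BIR all_RTT

theorem all_AATM : A_ATM.{v} := Pool.Agent.H94.SS.pf_ATM all_RATM

theorem all_THW : A_THW.{u, v} :=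
  Pool.Agent.H81.SS.THW.pf_THW all_WGD all_AATM Pool.Agent.H73.SS.pf_SML
    Pool.Agent.H81.SS.EIG.pf_EIG Pool.Agent.H60.SS.pf_CAU Pool.Agent.H17.SS.pf_LIX all_MXW

theorem all_THX : A_THX.{u, v} :=
  Pool.Agent.H10.SS.pf_THX all_WGD all_AATM Pool.Agent.H73.SS.pf_SML
    Pool.Agent.H81.SS.EIG.pf_LEG Pool.Agent.H60.SS.pf_CAU Pool.Agent.H17.SS.pf_LIX all_MXF
    (pf_SPC all_HER) all_RTT

theorem all_FIN : Final.{u, v} :=
  Pool.Agent.H35.SS.pf_FIN all_THW all_THX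

end Pool.Agent.H84.SS
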