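import Pool.Agent.H84.SS.Host2

/-!
# Host's lemma on the circle, part 3: multiples of small almost periods, and the lemma
-/

set_option autoImplicit false

namespace Pool.Agent.H84.SS

open MeasureTheory Filter Topology Set ProbabilityTheory
open scoped ENNReal

/-- `α` restricted to `A` is invariant under the rotation by `w` up to the proportion `θ` -/
def AI (α : Measure T1) (A : Set T1) (θ : ℝ) (w : T1) : Prop :=
  ∀ C, MeasurableSet C → α.real (A ∩ {s | s + w ∈ C}) ≤ α.real (A ∩ C) + θ * α.real A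

theorem AI_add {α : Measure T1} {A : Set T1} {θ θ' : ℝ} {w w' : T1} (h : AI α A θ w)
    (h' : AI α A θ' w') : AI α A (θ + θ') (w + w') := by
  intro C hC
  have h1 := h {u | u + w' ∈ C} ((measurable_id.add_const w') hC)
  have h2 := h' C hC
  have e : A ∩ {s | s + (w + w') ∈ C} = A ∩ {s | s + w ∈ {u | u + w' ∈ C}} := by
    ext s
    simp [add_assoc]
  rw [e]
  linarith

/-- the gap: almost invariance at level `22/100` improves to level `11/100` -/
theorem gap_step {α : Measure T1} [IsFiniteMeasure α] {A K : Set T1}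
    (hK : MeasurableSet K) (ha : 0 < α.real A) (hKs : α.real Kᶜ ≤ α.real A / 100) {δ : ℝ}
    (hgap : ∀ w : T1, ‖w‖ < δ → (∃ s ∈ A ∩ K, s + w ∈ K) → AI α A (11 / 100) w)
    {w : T1} (hw : ‖w‖ < δ) (h : AI α A (22 / 100) w) : AI α A (11 / 100) w := by
  refine hgap w hw ?_
  by_contra hc
  push Not at hc
  have hcov : A ⊆ Kᶜ ∪ (A ∩ {s | s + w ∈ Kᶜ}) := by
    intro s hs
    by_cases c1 : s ∈ K
    · exact Or.inr ⟨hs, hc s ⟨hs, c1⟩⟩
    · exact Or.inl c1
  have h1 := (measureReal_mono (μ := α) hcov (by finiteness)).trans (measureReal_union_le _ _)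
  have h2 := h Kᶜ hK.compl
  have h3 : α.real (A ∩ Kᶜ) ≤ α.real Kᶜ := measureReal_mono inter_subset_right (by finiteness)
  linarith

/-- arbitrarily small positive almost periods -/
theorem small_period {α : Measure T1} [IsFiniteMeasure α] {A K : Set T1}
    (ha : 0 < α.real A) (hKs : α.real Kᶜ ≤ α.real A / 100) {δ : ℝ} (hδ : 0 < δ)
    (hgap : ∀ w : T1, ‖w‖ < δ → (∃ s ∈ A ∩ K, s + w ∈ K) → AI α A (11 / 100) w)
    (hat : ∀ s, α {s} = 0) {r : ℝ} (hr : 0 < r) :
    ∃ w : ℝ, 0 < w ∧ w < r ∧ AI α A (11 / 100) (w : T1) := by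
  have hpos : α (A ∩ K) ≠ 0 := by
    intro h
    have h1 : α.real A ≤ α.real (A ∩ K) + α.real Kᶜ := by
      refine (measureReal_mono ?_ (by finiteness)).trans (measureReal_union_le _ _)
      intro s hs
      by_cases c1 : s ∈ K
      · exact Or.inl ⟨hs, c1⟩
      · exact Or.inr c1
    have h2 : α.real (A ∩ K) = 0 := by simp [Measure.real, h]
    linarith
  obtain ⟨x, hx, hx2⟩ := exists_mem_forall_mem_nhdsWithin_pos_measure hpos
  have hr' : 0 < min r δ := lt_min hr hδ
  have hball : Metric.ball x (min r δ) ∩ (A ∩ K) ∈ 𝓝[A ∩ K] x :=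
    inter_mem (mem_nhdsWithin_of_mem_nhds (Metric.ball_mem_nhds x hr')) self_mem_nhdsWithin
  have h3 := hx2 _ hball
  have h4 : ∃ y ∈ Metric.ball x (min r δ) ∩ (A ∩ K), y ≠ x := by
    by_contra hc
    push Not at hc
    have : α (Metric.ball x (min r δ) ∩ (A ∩ K)) ≤ α {x} := measure_mono hc
    rw [hat x] at this
    exact absurd h3 (not_lt.mpr this)
  obtain ⟨y, hy, hyx⟩ := h4
  have hn : ‖y - x‖ < min r δ := by
    rw [← dist_eq_norm]
    exact hy.1
  obtain ⟨v, hv, hvr⟩ := QuotientAddGroup.norm_lt_iff.mp hn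
  have hv0 : v ≠ 0 := by
    rintro rfl
    apply hyx
    have : y - x = 0 := by
      rw [← hv]
      rfl
    exact sub_eq_zero.mp this
  have hvc : ((v : ℝ) : T1) = y - x := hv
  rcases lt_or_gt_of_ne hv0 with hneg | hp
  · refine ⟨-v, by linarith, ?_, ?_⟩
    · rw [Real.norm_eq_abs, abs_of_neg hneg] at hvr
      exact hvr.trans_le (min_le_left _ _)
    · refine hgap _ ?_ ⟨y, hy.2, ?_⟩
      · rw [AddCircle.coe_neg, hvc, norm_neg]
        exact hn.trans_le (min_le_right _ _)
      · rw [AddCircle.coe_neg, hvc]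
        have : y + -(y - x) = x := by abel
        rw [this]
        exact hx.2
  · refine ⟨v, hp, ?_, ?_⟩
    · rw [Real.norm_eq_abs, abs_of_pos hp] at hvr
      exact hvr.trans_le (min_le_left _ _)
    · refine hgap _ ?_ ⟨x, hx, ?_⟩
      · rw [hvc]
        exact hn.trans_le (min_le_right _ _)
      · rw [hvc]
        have : x + (y - x) = y := by abel
        rw [this]
        exact hy.2.2

theorem norm_coe_le (x : ℝ) : ‖(x : T1)‖ ≤ |x| := by
  have := QuotientAddGroup.norm_mk_le_norm (S := AddSubgroup.zmultiples (1 : ℝ)) (m := x)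
  exact this

/-- all multiples below `δ` of a small almost period are almost periods -/
theorem multiples {α : Measure T1} [IsFiniteMeasure α] {A K : Set T1}
    (hK : MeasurableSet K) (ha : 0 < α.real A) (hKs : α.real Kᶜ ≤ α.real A / 100) {δ : ℝ}
    (hgap : ∀ w : T1, ‖w‖ < δ → (∃ s ∈ A ∩ K, s + w ∈ K) → AI α A (11 / 100) w)
    {w : ℝ} (hw0 : 0 < w) (hw : AI α A (11 / 100) (w : T1)) :
    ∀ n : ℕ, (n : ℝ) * w < δ → AI α A (11 / 100) (((n : ℝ) * w : ℝ) : T1) := by
  intro n
  induction n with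
  | zero =>
    intro _ C hC
    have e : A ∩ {s | s + ((((0 : ℕ) : ℝ) * w : ℝ) : T1) ∈ C} = A ∩ C := by
      ext s
      simp
    rw [e]
    have : 0 ≤ 11 / 100 * α.real A := by positivity
    linarith
  | succ n ih =>
    intro hn
    have h1 : (n : ℝ) * w < δ := by
      push_cast at hn
      nlinarith
    have h2 := AI_add (ih h1) hw
    have e : (((n : ℝ) * w : ℝ) : T1) + (w : T1) = ((((n + 1 : ℕ) : ℝ) * w : ℝ) : T1) := by
      rw [← AddCircle.coe_add]
      congr 1
      push_cast
      ring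
    rw [e] at h2
    have h3 : (11 / 100 + 11 / 100 : ℝ) = 22 / 100 := by norm_num
    rw [h3] at h2
    refine gap_step hK ha hKs hgap ?_ h2
    refine (norm_coe_le _).trans_lt ?_
    rw [abs_of_nonneg (by positivity)]
    exact hn

/-- **Host's lemma on the circle.** -/
theorem host_lemma {α β γ : Measure T1} [IsFiniteMeasure α] [IsFiniteMeasure β]
    [IsFiniteMeasure γ] {E : Set (T1 × T1)} (hE : MeasurableSet E)
    (h1 : ((α.prod β).restrict E).map (fun p => (p.1, p.1 + p.2)) ≪ α.prod γ)
    (h2 : ((α.prod β).restrict E).map (fun p => (p.2, p.1 + p.2)) ≪ β.prod γ)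
    (hat : ∀ s, α {s} = 0) (hsing : α ⟂ₘ (volume : Measure T1)) :
    (α.prod β) E = 0 := by
  by_contra h0
  obtain ⟨A, K, hA, hK, ha, hKs, δ, hδ, hgap⟩ := gap hE h1 h2 h0
  set a := α.real A with hadef
  have hgap' : ∀ w : T1, ‖w‖ < δ → (∃ s ∈ A ∩ K, s + w ∈ K) → AI α A (11 / 100) w := hgap
  -- an open set of small measure which contains the null set of full measure
  set N : Set T1 := hsing.nullSet with hN
  have hNm : MeasurableSet N := hsing.measurableSet_nullSet
  have hN0 : α N = 0 := hsing.measure_nullSet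
  have hN1 : (volume : Measure T1) Nᶜ = 0 := hsing.measure_compl_nullSet
  obtain ⟨U, hNU, hUo, hUs⟩ := N.exists_isOpen_lt_of_lt (μ := α) (ENNReal.ofReal (a / 4)) (by
    rw [hN0]; simpa using ha)
  have hUr : α.real U ≤ a / 4 := by
    rw [Measure.real]
    exact ENNReal.toReal_le_of_le_ofReal (by positivity) hUs.le
  -- for almost every x almost all translates lie in N
  have hae : ∀ᵐ x ∂(volume : Measure T1), α {s | s + x ∈ Nᶜ} = 0 := by
    have hm : MeasurableSet {p : T1 × T1 | p.2 + p.1 ∈ Nᶜ} :=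
      (measurable_snd.add measurable_fst) hNm.compl
    have e1 : ((volume : Measure T1).prod α) {p : T1 × T1 | p.2 + p.1 ∈ Nᶜ} = 0 := by
      rw [Measure.prod_apply_symm hm]
      have : ∀ s : T1, (volume : Measure T1) ((fun x => (x, s)) ⁻¹' {p : T1 × T1 | p.2 + p.1 ∈ Nᶜ})
          = 0 := by
        intro s
        have e2 : ((fun x => (x, s)) ⁻¹' {p : T1 × T1 | p.2 + p.1 ∈ Nᶜ}) = (s + ·) ⁻¹' Nᶜ := rfl
        rw [e2, measure_preimage_add]
        exact hN1
      simp only [this, lintegral_zero]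
    exact Measure.measure_ae_null_of_prod_null e1
  -- a point of the arc
  obtain ⟨y, hy0, hyδ, hy⟩ : ∃ y : ℝ, 0 < y ∧ y < δ ∧ α {s | s + (y : T1) ∈ Nᶜ} = 0 := by
    have hopen : IsOpen ((fun y : ℝ => (y : T1)) '' Ioo 0 δ) :=
      QuotientAddGroup.isOpenMap_coe _ isOpen_Ioo
    have hne : ((fun y : ℝ => (y : T1)) '' Ioo 0 δ).Nonempty := (nonempty_Ioo.mpr hδ).image _
    have hd : Dense {x : T1 | α {s | s + x ∈ Nᶜ} = 0} := Measure.dense_of_ae hae
    obtain ⟨x, ⟨y, hy, rfl⟩, hx⟩ := hd.inter_open_nonempty _ hopen hne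
    exact ⟨y, hy.1, hy.2, hx⟩
  -- multiples of small almost periods near y
  have hch : ∀ k : ℕ, ∃ w : ℝ, 0 < w ∧ w < 1 / ((k : ℝ) + 1) ∧ AI α A (11 / 100) (w : T1) :=
    fun k => small_period ha hKs hδ hgap' hat (by positivity)
  choose w hw0 hwk hwA using hch
  set x : ℕ → ℝ := fun k => (⌊y / w k⌋₊ : ℝ) * w k with hx
  have hxle : ∀ k, x k ≤ y := fun k => by
    have := Nat.floor_le (div_nonneg hy0.le (hw0 k).le)
    calc x k ≤ (y / w k) * w k := mul_le_mul_of_nonneg_right this (hw0 k).le
      _ = y := div_mul_cancel₀ _ (hw0 k).ne'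
  have hxge : ∀ k : ℕ, y - 1 / ((k : ℝ) + 1) ≤ x k := fun k => by
    have h3 := Nat.lt_floor_add_one (y / w k)
    have h4 : y < ((⌊y / w k⌋₊ : ℝ) + 1) * w k := by
      rwa [div_lt_iff₀ (hw0 k)] at h3
    have h5 := hwk k
    simp only [hx]
    linarith
  have hxt : Tendsto x atTop (𝓝 y) := by
    refine tendsto_of_tendsto_of_tendsto_of_le_of_le ?_ tendsto_const_nhds hxge hxle
    have := (tendsto_one_div_add_atTop_nhds_zero_nat (𝕜 := ℝ)).const_sub y
    simpa using this
  have hxA : ∀ k, AI α A (11 / 100) (x k : T1) := fun k =>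
    multiples hK ha hKs hgap' (hw0 k) (hwA k) _ ((hxle k).trans_lt hyδ)
  -- Fatou
  have hfat : α A ≤ liminf (fun k => α (A ∩ {s | s + (x k : T1) ∈ U})) atTop := by
    have hmk : ∀ k, MeasurableSet (A ∩ {s | s + (x k : T1) ∈ U}) := fun k =>
      hA.inter ((measurable_id.add_const _) hUo.measurableSet)
    calc α A = ∫⁻ s, A.indicator (fun _ => 1) s ∂α := by
          rw [lintegral_indicator hA, lintegral_const, one_mul, Measure.restrict_apply_univ]
      _ ≤ ∫⁻ s, liminf (fun k => (A ∩ {s | s + (x k : T1) ∈ U}).indicator (fun _ => (1 : ℝ≥0∞)) s)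
            atTop ∂α := by
          refine lintegral_mono_ae ?_
          have hyae : ∀ᵐ s ∂α, s + (y : T1) ∈ N := by
            rw [ae_iff]
            exact hy
          filter_upwards [hyae] with s hs
          by_cases hsA : s ∈ A
          · rw [indicator_of_mem hsA]
            have hcont : Tendsto (fun k => s + (x k : T1)) atTop (𝓝 (s + (y : T1))) := by
              have hc : Tendsto (fun k => ((x k : ℝ) : T1)) atTop (𝓝 ((y : ℝ) : T1)) :=
                ((AddCircle.continuous_mk' 1).tendsto y).comp hxt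
              exact hc.const_add s
            have hev : ∀ᶠ k in atTop, s + (x k : T1) ∈ U :=
              hcont.eventually (hUo.mem_nhds (hNU hs))
            refine le_liminf_of_le (by isBoundedDefault) ?_
            filter_upwards [hev] with k hk
            have hmem : s ∈ A ∩ {s | s + (x k : T1) ∈ U} := ⟨hsA, hk⟩
            rw [indicator_of_mem hmem]
          · rw [indicator_of_notMem hsA]
            exact zero_le
      _ ≤ liminf (fun k => ∫⁻ s, (A ∩ {s | s + (x k : T1) ∈ U}).indicator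
            (fun _ => (1 : ℝ≥0∞)) s ∂α) atTop :=
          lintegral_liminf_le fun k => measurable_const.indicator (hmk k)
      _ = liminf (fun k => α (A ∩ {s | s + (x k : T1) ∈ U})) atTop := by
          congr 1
          ext k
          rw [lintegral_indicator (hmk k), lintegral_const, one_mul, Measure.restrict_apply_univ]
  have hup : ∀ k, α (A ∩ {s | s + (x k : T1) ∈ U}) ≤ ENNReal.ofReal (36 / 100 * a) := by
    intro k
    have h3 := hxA k U hUo.measurableSet
    have h4 : α.real (A ∩ U) ≤ α.real U := measureReal_mono inter_subset_right (by finiteness)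
    rw [← ofReal_measureReal]
    apply ENNReal.ofReal_le_ofReal
    linarith
  have h5 : α A ≤ ENNReal.ofReal (36 / 100 * a) := by
    refine hfat.trans ?_
    refine (liminf_le_liminf (Eventually.of_forall hup)).trans ?_
    rw [liminf_const]
  have h6 : a ≤ 36 / 100 * a := by
    rw [hadef, Measure.real]
    rw [hadef, Measure.real] at h5 ha
    exact ENNReal.toReal_le_of_le_ofReal (by positivity) h5
  linarith

end Pool.Agent.H84.SS
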