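import Pool.Agent.H85.RT.Defs
import Pool.Agent.H94.RTB.Targets
import Pool.Agent.H84.SS.Host3

/-!
# Return times for double recurrence, singular spectrum: definitions
-/

set_option autoImplicit false

namespace Pool.Agent.H84.SS

open MeasureTheory Filter Topology Set ProbabilityTheory
open scoped ENNReal ComplexConjugate
open Pool.Agent.H85.RT (avg GoodWeight Good)
open Pool.Agent.H94.RTB (LGood PD)

universe u v

/-- the character `e(a s + b t)` of the torus -/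
noncomputable def ch (a b : ℤ) (p : T1 × T1) : ℂ := fourier a p.1 * fourier b p.2

/-- the finite measure `σ` has the Fourier coefficients `p` -/
def IsHat (σ : Measure T1) (p : ℤ → ℂ) : Prop := ∀ n : ℤ, ∫ t, fourier n t ∂σ = p n

/-- the atoms of a measure -/
def atoms (σ : Measure T1) : Set T1 := {t | σ {t} ≠ 0}

/-- the quadratic form `∑ u_i conj u_j p(i.1 - j.1) q(i.2 - j.2)` -/
noncomputable def qf (p q : ℤ → ℂ) (s : Finset (ℕ × ℕ)) (u : ℕ × ℕ → ℂ) : ℂ :=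
  ∑ i ∈ s, ∑ j ∈ s, u i * conj (u j) * p ((i.1 : ℤ) - j.1) * q ((i.2 : ℤ) - j.2)

/-- the three pair bounds for a function `r` of three indices which is invariant under the common
shift -/
structure Trip (C₁₂ C₁₃ C₂₃ : ℝ) (p₁ p₂ p₃ : ℤ → ℂ) (r : ℕ → ℕ → ℕ → ℂ) : Prop where
  inv : ∀ a b c, r (a + 1) (b + 1) (c + 1) = r a b c
  b12 : ∀ (c : ℕ) (s : Finset (ℕ × ℕ)) (u : ℕ × ℕ → ℂ),
    ‖∑ i ∈ s, u i * r i.1 i.2 c‖ ^ 2 ≤ C₁₂ * (qf p₁ p₂ s u).re
  b13 : ∀ (b : ℕ) (s : Finset (ℕ × ℕ)) (u : ℕ × ℕ → ℂ),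
    ‖∑ i ∈ s, u i * r i.1 b i.2‖ ^ 2 ≤ C₁₃ * (qf p₁ p₃ s u).re
  b23 : ∀ (a : ℕ) (s : Finset (ℕ × ℕ)) (u : ℕ × ℕ → ℂ),
    ‖∑ i ∈ s, u i * r a i.1 i.2‖ ^ 2 ≤ C₂₃ * (qf p₂ p₃ s u).re

/-- the weight `w`, bounded by `B`, has the correlations `p` and all products
`w(n+a) conj w(n+a')` are good weights for linear averages -/
structure WGood (B : ℝ) (w : ℕ → ℂ) (p : ℤ → ℂ) : Prop where
  bdd : ∀ n, ‖w n‖ ≤ B
  cor : ∀ a a' : ℕ, Tendsto (fun N : ℕ => (∑ n ∈ Finset.Icc 1 N, w (n + a) * conj (w (n + a'))) /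
    (N : ℂ)) atTop (𝓝 (p ((a : ℤ) - a')))
  lin : ∀ a a' : ℕ, LGood.{u} (fun n => w (n + a) * conj (w (n + a')))

section System

variable {X : Type u} [m0 : MeasurableSpace X]

/-- the product `f(T^b x) conj f(T^b' x)` -/
noncomputable def fp (T : X → X) (f : X → ℂ) (b b' : ℕ) (x : X) : ℂ :=
  f (T^[b] x) * conj (f (T^[b'] x))

/-- the conditional correlation: conditional expectation of `f(T^b x) conj f(T^b' x)` given the
invariant sets -/
noncomputable def cf (μ : Measure X) (T : X → X) (f : X → ℂ) (b b' : ℕ) : X → ℂ :=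
  μ[fp T f b b' | MeasurableSpace.invariants T]

/-- the conditional correlation sequence on the integers at the point `x` -/
noncomputable def pf (μ : Measure X) (T : X → X) (f : X → ℂ) (x : X) (n : ℤ) : ℂ :=
  cf μ T f n.toNat (-n).toNat x

/-- the unweighted averages of all products of translates of `f` and `g` converge -/
def DRfg (μ : Measure X) (T : X ≃ᵐ X) (f g : X → ℂ) : Prop :=
  ∀ b b' c c' : ℕ, ∀ᵐ x ∂μ, ∃ l : ℂ,
    Tendsto (fun N => avg T (fp T f b b') (fp T.symm g c c') (fun _ => 1) N x) atTop (𝓝 l)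

/-- all unweighted double recurrence averages on the system converge -/
def DR (μ : Measure X) (T : X ≃ᵐ X) : Prop :=
  ∀ f g : X → ℂ, Measurable f → Measurable g → (∀ x, ‖f x‖ ≤ 1) → (∀ x, ‖g x‖ ≤ 1) →
    ∀ᵐ x ∂μ, ∃ l : ℂ, Tendsto (fun N => avg T f g (fun _ => 1) N x) atTop (𝓝 l)

/-- the average of the products of translates up to the random time `N x` with the phase `θ x` -/
noncomputable def ph (T : X ≃ᵐ X) (f g : X → ℂ) (w : ℕ → ℂ) (N : X → ℕ) (θ : X → ℂ)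
    (a b c : ℕ) (x : X) : ℂ :=
  θ x * ((∑ n ∈ Finset.Icc 1 (N x), w (n + a) * f (T^[n + b] x) * g (T.symm^[n + c] x)) / (N x : ℂ))

/-- random times tending to infinity and phases -/
structure RTimes (N : ℕ → X → ℕ) (θ : ℕ → X → ℂ) : Prop where
  measN : ∀ i, Measurable (N i)
  large : ∀ i x, i + 1 ≤ N i x
  measθ : ∀ i, Measurable (θ i)
  bddθ : ∀ i x, ‖θ i x‖ ≤ 1

/-- `R a b c` is the limit (along the ultrafilter) of the conditional expectations of `ph` given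
the invariant sets -/
structure IsLim (μ : Measure X) (T : X ≃ᵐ X) (f g : X → ℂ) (w : ℕ → ℂ) (N : ℕ → X → ℕ)
    (θ : ℕ → X → ℂ) (R : ℕ → ℕ → ℕ → X → ℂ) : Prop where
  meas : ∀ a b c, StronglyMeasurable[MeasurableSpace.invariants T] (R a b c)
  int : ∀ a b c, Integrable (R a b c) μ
  lim : ∀ a b c Q, MeasurableSet[MeasurableSpace.invariants T] Q →
    Tendsto (fun i => ∫ x in Q, ph T f g w (N i) (θ i) a b c x ∂μ) (hyperfilter ℕ)
      (𝓝 (∫ x in Q, R a b c x ∂μ))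

end System

/-- `σ` is a spectral measure of the bounded function `h` -/
def IsSpec {Ω : Type v} [MeasurableSpace Ω] (m : Measure Ω) (S : Ω → Ω) (h : Ω → ℂ)
    (σ : Measure T1) : Prop :=
  IsFiniteMeasure σ ∧ ∀ n : ℕ, ∫ ω, h (S^[n] ω) * conj (h ω) ∂m = ∫ t, fourier (n : ℤ) t ∂σ

end Pool.Agent.H84.SS
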