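import Pool.Agent.H84.SS.All
import Pool.Agent.H85.RTX.Final

/-!
# Return times for double recurrence: one of the three functions has singular spectral measure over
the tail of a monotone sigma-algebra
-/

set_option autoImplicit false

namespace Pool.Agent.H84.SS

open MeasureTheory Filter Topology Set ProbabilityTheory
open scoped ENNReal ComplexConjugate
open Pool.Agent.H85.RT

universe u v

/-- `f` has a spectral measure which is singular to Lebesgue measure -/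
def Sing {Ω : Type v} [MeasurableSpace Ω] (m : Measure Ω) (S : Ω → Ω) (f : Ω → ℂ) : Prop :=
  ∃ σ : Measure UnitAddCircle, σ ⟂ₘ (volume : Measure UnitAddCircle) ∧ IsSpec m S f σ

/-- `f` has a spectral measure which is singular to Lebesgue measure and has no atoms -/
def SingC {Ω : Type v} [MeasurableSpace Ω] (m : Measure Ω) (S : Ω → Ω) (f : Ω → ℂ) : Prop :=
  ∃ σ : Measure UnitAddCircle, σ ⟂ₘ (volume : Measure UnitAddCircle) ∧ (∀ t, σ {t} = 0) ∧
    IsSpec m S f σ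

/-- bounded orbit weights -/
theorem orb_bdd {Ω : Type v} [MeasurableSpace Ω] {m : Measure Ω} {S : Ω ≃ᵐ Ω}
    (hS : MeasurePreserving S m m) {h : Ω → ℂ} (hh : MemLp h ⊤ m) :
    ∀ᵐ ω ∂m, ∃ C : ℝ, ∀ n : ℕ, ‖h (S^[n] ω)‖ ≤ C := by
  have : ∀ n : ℕ, ∀ᵐ ω ∂m, ‖h (S^[n] ω)‖ₑ ≤ eLpNormEssSup h m := by
    intro n
    exact (hS.iterate n).quasiMeasurePreserving.ae (enorm_ae_le_eLpNormEssSup h m)
  rw [← ae_all_iff] at this
  filter_upwards [this] with ω hω
  refine ⟨(eLpNormEssSup h m).toReal, fun n => ?_⟩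
  have htop : eLpNormEssSup h m ≠ ⊤ := by
    have := hh.eLpNorm_lt_top
    rw [eLpNorm_exponent_top] at this
    exact this.ne
  have := ENNReal.toReal_mono htop (hω n)
  simpa using this

theorem final2 :
    ∀ (Ω : Type v) (P : MeasurableSpace Ω) [m0 : MeasurableSpace Ω] (m : Measure Ω)
      [IsProbabilityMeasure m] (S : Ω ≃ᵐ Ω), Ergodic S m → P ≤ m0 → IsMono S.toEquiv P →
      ∀ h : Ω → ℂ, MemLp h ⊤ m → AEStronglyMeasurable[span S.toEquiv P] h m →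
      ∃ G : Set Ω, MeasurableSet G ∧ m G = 1 ∧ ∀ ω ∈ G,
        (Sing m S (m[h | tail S.toEquiv P]) → Good.{u} S h ω) ∧
        (SingC m S (m[h | tail S.toEquiv P]) → NullWeight.{u} (fun n => h (S^[n] ω))) ∧
        (∀ (X : Type u) (Q : MeasurableSpace X) [mX : MeasurableSpace X] (μ : Measure X)
          [IsProbabilityMeasure μ] (T : X ≃ᵐ X), Ergodic T μ → Q ≤ mX → IsMono T.toEquiv Q →
          ∀ f g : X → ℂ, MemLp f ⊤ μ → MemLp g ⊤ μ →
          AEStronglyMeasurable[span T.toEquiv Q] f μ → AEStronglyMeasurable[span T.toEquiv Q] g μ →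
          Sing μ T (μ[f | tail T.toEquiv Q]) ∨ Sing μ T (μ[g | tail T.toEquiv Q]) →
            ∀ᵐ x ∂μ, ∃ l : ℂ,
              Tendsto (fun N => avg T f g (fun n => h (S^[n] ω)) N x) atTop (𝓝 l)) := by
  intro Ω P m0 m _ S hS hP0 hP h hh hspan
  obtain ⟨G2, hG2m, hG2, h2⟩ := all_FIN.{u, v}.2 Ω m S hS h hh
  obtain ⟨G3, hG3m, hG3, h3⟩ :=
    @exists_set Ω m0 m _ _ (orb_bdd hS.toMeasurePreserving hh)
  obtain ⟨G1, hG1m, hG1, h1⟩ : ∃ G : Set Ω, MeasurableSet G ∧ m G = 1 ∧ ∀ ω ∈ G,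
      (Sing m S (m[h | tail S.toEquiv P]) → Good.{u} S h ω) := by
    by_cases hs : Sing m S (m[h | tail S.toEquiv P])
    · obtain ⟨σ, hσ1, hσ2⟩ := hs
      obtain ⟨G, g1, g2, g3⟩ := (all_FIN.{u, v}).1 Ω P m S hS hP0 hP h σ hh hspan hσ2 hσ1
      exact ⟨G, g1, g2, fun ω hω _ => (g3 ω hω).1 gw_one⟩
    · exact ⟨univ, MeasurableSet.univ, measure_univ, fun ω _ hh => absurd hh hs⟩
  obtain ⟨G4, hG4m, hG4, h4⟩ : ∃ G : Set Ω, MeasurableSet G ∧ m G = 1 ∧ ∀ ω ∈ G,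
      (SingC m S (m[h | tail S.toEquiv P]) → NullWeight.{u} (fun n => h (S^[n] ω))) := by
    by_cases hs : SingC m S (m[h | tail S.toEquiv P])
    · obtain ⟨σ, hσ1, hσ2, hσ3⟩ := hs
      obtain ⟨G, g1, g2, g3⟩ := (all_FIN.{u, v}).1 Ω P m S hS hP0 hP h σ hh hspan hσ3 hσ1
      exact ⟨G, g1, g2, fun ω hω _ X _ μ _ T hT f g hf hg =>
        (g3 ω hω).2 hσ2 X μ T hT (dr_all X μ T hT) f g hf hg⟩
    · exact ⟨univ, MeasurableSet.univ, measure_univ, fun ω _ hh => absurd hh hs⟩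
  refine ⟨G1 ∩ G2 ∩ G3 ∩ G4, ((hG1m.inter hG2m).inter hG3m).inter hG4m, ?_,
    fun ω hω => ⟨h1 ω hω.1.1.1, h4 ω hω.2, ?_⟩⟩
  · rw [← prob_compl_eq_zero_iff (((hG1m.inter hG2m).inter hG3m).inter hG4m), compl_inter,
      compl_inter, compl_inter]
    rw [← prob_compl_eq_zero_iff hG1m] at hG1
    rw [← prob_compl_eq_zero_iff hG2m] at hG2
    rw [← prob_compl_eq_zero_iff hG3m] at hG3
    rw [← prob_compl_eq_zero_iff hG4m] at hG4
    exact measure_union_null (measure_union_null (measure_union_null hG1 hG2) hG3) hG4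
  · intro X Q mX μ _ T hT hQ0 hQ f g hf hg hfs hgs hsing
    have hff : MemLp (μ[f | tail T.toEquiv Q]) ⊤ μ := hf.condExp le_top
    have hgg : MemLp (μ[g | tail T.toEquiv Q]) ⊤ μ := hg.condExp le_top
    have hc := h2 ω hω.1.1.2 X μ T hT (dr_all X μ T hT.toMeasurePreserving) _ _ hff hgg (by
      rcases hsing with ⟨σ, h1, h2⟩ | ⟨σ, h1, h2⟩
      · exact ⟨σ, h1, Or.inl h2⟩
      · exact ⟨σ, h1, Or.inr h2⟩)
    have hd := Pool.Agent.H85.RTX.complex_side hT.toMeasurePreserving hQ0 hQ hf hg hfs hgs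
      (w := fun n => h (S^[n] ω)) (h3 ω hω.1.2)
    filter_upwards [hc, hd] with x hx hx2
    obtain ⟨l, hl⟩ := hx
    refine ⟨0 + l, (hx2.add hl).congr fun N => ?_⟩
    ring

end Pool.Agent.H84.SS
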