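import Mathlib

/-!
# Host's lemma on the circle, part 1: uniform continuity of translated slices on large sets
-/

set_option autoImplicit false

namespace Pool.Agent.H84.SS

open MeasureTheory Filter Topology Set ProbabilityTheory
open scoped ENNReal

/-- the circle -/
abbrev T1 : Type := UnitAddCircle

theorem approx_unif {α γ : Measure T1} [IsFiniteMeasure α] [IsFiniteMeasure γ]
    {K : T1 × T1 → ℝ} (hK : Integrable K (α.prod γ)) (hKm : Measurable K) {e h : ℝ}
    (he : 0 < e) (hh : 0 < h) :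
    ∃ K' : Set T1, MeasurableSet K' ∧ α K'ᶜ ≤ ENNReal.ofReal h ∧ ∃ δ > 0, ∀ s ∈ K', ∀ s' ∈ K',
      dist s s' < δ → ∫⁻ u, ‖K (s, u) - K (s', u)‖ₑ ∂γ ≤ ENNReal.ofReal e := by
  have he3 : 0 < e / 3 := by positivity
  have hne : ENNReal.ofReal (e / 3) * ENNReal.ofReal h ≠ 0 :=
    mul_ne_zero (by simpa using he3) (by simpa using hh)
  obtain ⟨g, hg, -⟩ := hK.exists_boundedContinuous_lintegral_sub_le hne
  have hmeas : Measurable fun p : T1 × T1 => ‖K p - g p‖ₑ :=
    (hKm.sub g.continuous.measurable).enorm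
  have hF : Measurable fun s : T1 => ∫⁻ u, ‖K (s, u) - g (s, u)‖ₑ ∂γ :=
    hmeas.lintegral_prod_right'
  have hprod : ∫⁻ s, ∫⁻ u, ‖K (s, u) - g (s, u)‖ₑ ∂γ ∂α ≤
      ENNReal.ofReal (e / 3) * ENNReal.ofReal h := by
    rw [← lintegral_prod _ hmeas.aemeasurable]
    exact hg
  refine ⟨{s | ∫⁻ u, ‖K (s, u) - g (s, u)‖ₑ ∂γ ≤ ENNReal.ofReal (e / 3)},
    measurableSet_le hF measurable_const, ?_, ?_⟩
  · have h1 := mul_meas_ge_le_lintegral (μ := α) hF (ENNReal.ofReal (e / 3))
    have h2 : α {s | ∫⁻ u, ‖K (s, u) - g (s, u)‖ₑ ∂γ ≤ ENNReal.ofReal (e / 3)}ᶜ ≤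
        α {s | ENNReal.ofReal (e / 3) ≤ ∫⁻ u, ‖K (s, u) - g (s, u)‖ₑ ∂γ} := by
      refine measure_mono fun s hs => ?_
      simp only [mem_compl_iff, mem_ofPred_eq, not_le] at hs ⊢
      exact hs.le
    refine h2.trans ?_
    have h3 := h1.trans hprod
    exact (ENNReal.mul_le_mul_iff_right (by simpa using he3) ENNReal.ofReal_ne_top).mp h3
  · have hgu : UniformContinuous (g : T1 × T1 → ℝ) :=
      CompactSpace.uniformContinuous_of_continuous g.continuous
    set c : ℝ := (e / 3) / (γ.real univ + 1) with hc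
    have hpos : 0 < γ.real univ + 1 := by positivity
    have hc0 : 0 < c := by positivity
    obtain ⟨δ, hδ, hu⟩ := Metric.uniformContinuous_iff.mp hgu c hc0
    refine ⟨δ, hδ, fun s hs s' hs' hd => ?_⟩
    simp only [mem_ofPred_eq] at hs hs'
    have hgg : ∀ u, ‖g (s, u) - g (s', u)‖ₑ ≤ ENNReal.ofReal c := by
      intro u
      have hdd : dist ((s, u) : T1 × T1) (s', u) < δ := by
        rw [Prod.dist_eq]
        simpa [dist_self, dist_nonneg] using hd
      have := hu hdd
      rw [Real.dist_eq] at this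
      rw [Real.enorm_eq_ofReal_abs]
      exact ENNReal.ofReal_le_ofReal this.le
    have hcg : ENNReal.ofReal c * γ univ ≤ ENNReal.ofReal (e / 3) := by
      have e1 : γ univ = ENNReal.ofReal (γ.real univ) := by
        rw [ofReal_measureReal]
      rw [e1, ← ENNReal.ofReal_mul hc0.le]
      apply ENNReal.ofReal_le_ofReal
      rw [hc, div_mul_eq_mul_div, div_le_iff₀ hpos]
      have : (0 : ℝ) ≤ γ.real univ := measureReal_nonneg
      nlinarith
    calc ∫⁻ u, ‖K (s, u) - K (s', u)‖ₑ ∂γ
        ≤ ∫⁻ u, (‖K (s, u) - g (s, u)‖ₑ + (‖g (s, u) - g (s', u)‖ₑ +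
            ‖K (s', u) - g (s', u)‖ₑ)) ∂γ := by
          refine lintegral_mono fun u => ?_
          have e1 : K (s, u) - K (s', u) = (K (s, u) - g (s, u)) + ((g (s, u) - g (s', u)) +
            -(K (s', u) - g (s', u))) := by ring
          rw [e1]
          refine (enorm_add_le _ _).trans ?_
          gcongr
          refine (enorm_add_le _ _).trans ?_
          rw [enorm_neg]
      _ ≤ ∫⁻ u, (‖K (s, u) - g (s, u)‖ₑ + (ENNReal.ofReal c +
            ‖K (s', u) - g (s', u)‖ₑ)) ∂γ := by
          refine lintegral_mono fun u => ?_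
          gcongr
          exact hgg u
      _ = ∫⁻ u, ‖K (s, u) - g (s, u)‖ₑ ∂γ + (ENNReal.ofReal c * γ univ +
            ∫⁻ u, ‖K (s', u) - g (s', u)‖ₑ ∂γ) := by
          have hm1 : Measurable fun u : T1 => ‖K (s, u) - g (s, u)‖ₑ :=
            hmeas.comp measurable_prodMk_left
          rw [lintegral_add_left hm1, lintegral_add_left measurable_const, lintegral_const]
      _ ≤ ENNReal.ofReal (e / 3) + (ENNReal.ofReal (e / 3) + ENNReal.ofReal (e / 3)) := by
          gcongr
      _ = ENNReal.ofReal e := by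
          rw [← ENNReal.ofReal_add he3.le he3.le, ← ENNReal.ofReal_add he3.le (by positivity)]
          congr 1
          ring

/-- the kernel `s ↦` image of `β` restricted to `E_s` under `t ↦ s + t` -/
noncomputable def ker (β : Measure T1) [SFinite β] (E : Set (T1 × T1)) (hE : MeasurableSet E) :
    Kernel T1 T1 where
  toFun s := (β.restrict (Prod.mk s ⁻¹' E)).map (s + ·)
  measurable' := by
    refine Measure.measurable_of_measurable_coe _ fun C hC => ?_
    have h1 : (fun s => ((β.restrict (Prod.mk s ⁻¹' E)).map (s + ·)) C) =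
        fun s => β (Prod.mk s ⁻¹' (E ∩ {p | p.1 + p.2 ∈ C})) := by
      ext s
      rw [Measure.map_apply (by fun_prop) hC,
        Measure.restrict_apply ((by fun_prop : Measurable (s + · : T1 → T1)) hC), Set.inter_comm]
      rfl
    rw [h1]
    exact measurable_measure_prodMk_left
      (hE.inter ((measurable_fst.add measurable_snd) hC))

theorem ker_apply {β : Measure T1} [SFinite β] {E : Set (T1 × T1)} (hE : MeasurableSet E)
    (s : T1) {C : Set T1} (hC : MeasurableSet C) :
    ker β E hE s C = β (Prod.mk s ⁻¹' E ∩ {t | s + t ∈ C}) := by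
  change ((β.restrict (Prod.mk s ⁻¹' E)).map (s + ·)) C = _
  rw [Measure.map_apply (by fun_prop) hC,
    Measure.restrict_apply ((by fun_prop : Measurable (s + · : T1 → T1)) hC), Set.inter_comm]
  rfl

instance {β : Measure T1} [IsFiniteMeasure β] {E : Set (T1 × T1)} {hE : MeasurableSet E} :
    IsFiniteKernel (ker β E hE) := by
  refine ⟨β univ, measure_lt_top _ _, fun s => ?_⟩
  rw [ker_apply hE s MeasurableSet.univ]
  exact measure_mono (subset_univ _)

theorem compProd_ker {α β : Measure T1} [IsFiniteMeasure α] [IsFiniteMeasure β]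
    {E : Set (T1 × T1)} (hE : MeasurableSet E) :
    α ⊗ₘ (ker β E hE) = ((α.prod β).restrict E).map (fun p => (p.1, p.1 + p.2)) := by
  have hm : Measurable fun p : T1 × T1 => (p.1, p.1 + p.2) := by fun_prop
  ext D hD
  rw [Measure.compProd_apply hD, Measure.map_apply hm hD, Measure.restrict_apply (hm hD),
    Measure.prod_apply ((hm hD).inter hE)]
  refine lintegral_congr fun s => ?_
  rw [ker_apply hE s (measurable_prodMk_left hD), Set.inter_comm]
  rfl

/-- On a large set the slices of `E` and their translates are uniformly continuous, so that they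
are almost invariant under small differences of points of the set. -/
theorem inv_set {α β γ : Measure T1} [IsFiniteMeasure α] [IsFiniteMeasure β] [IsFiniteMeasure γ]
    {E : Set (T1 × T1)} (hE : MeasurableSet E)
    (hac : ((α.prod β).restrict E).map (fun p => (p.1, p.1 + p.2)) ≪ α.prod γ) {e h : ℝ}
    (he : 0 < e) (hh : 0 < h) :
    ∃ K₁ : Set T1, MeasurableSet K₁ ∧ α K₁ᶜ ≤ ENNReal.ofReal h ∧ ∃ δ > 0, ∀ s ∈ K₁, ∀ w : T1,
      ‖w‖ < δ → s + w ∈ K₁ → ∀ C, MeasurableSet C →
        β (Prod.mk s ⁻¹' E ∩ {t | t + w ∈ C}) ≤ β (Prod.mk s ⁻¹' E ∩ C) + ENNReal.ofReal e := by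
  classical
  set κ : Kernel T1 T1 := ker β E hE with hκ
  have h1 : α ⊗ₘ κ ≪ α ⊗ₘ (Kernel.const T1 γ) := by
    rw [hκ, compProd_ker hE, Measure.compProd_const]
    exact hac
  have h_ac : ∀ᵐ a ∂α, κ a ≪ (Kernel.const T1 γ) a := h1.kernel_of_compProd
  set D : T1 → T1 → ℝ≥0∞ := Kernel.rnDeriv κ (Kernel.const T1 γ) with hD
  have hDm : Measurable fun p : T1 × T1 => D p.1 p.2 := Kernel.measurable_rnDeriv _ _
  have hκ_eq : ∀ᵐ a ∂α, ∀ C, MeasurableSet C → κ a C = ∫⁻ u in C, D a u ∂γ := by
    filter_upwards [h_ac] with a ha C hC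
    have h2 := Kernel.withDensity_rnDeriv_eq ha
    have h3 : κ a C = ((Kernel.const T1 γ).withDensity (Kernel.rnDeriv κ (Kernel.const T1 γ)) a) C := by
      rw [h2]
    rw [h3, Kernel.withDensity_apply' _ (Kernel.measurable_rnDeriv _ _), Kernel.const_apply]
  -- the good set
  set G : Set T1 := {a | ∀ C, MeasurableSet C → κ a C = ∫⁻ u in C, D a u ∂γ} with hG
  have hGae : α Gᶜ = 0 := hκ_eq
  set N : Set T1 := toMeasurable α Gᶜ with hN
  have hNm : MeasurableSet N := measurableSet_toMeasurable _ _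
  have hN0 : α N = 0 := by rw [hN, measure_toMeasurable, hGae]
  have hNG : ∀ s, s ∉ N → s ∈ G := fun s hs => by
    by_contra hc
    exact hs (subset_toMeasurable _ _ hc)
  -- the real density
  set K : T1 × T1 → ℝ := fun p => (D p.1 p.2).toReal with hKdef
  have hKm : Measurable K := hDm.ennreal_toReal
  have hint : ∫⁻ p, D p.1 p.2 ∂(α.prod γ) < ∞ := by
    rw [lintegral_prod _ hDm.aemeasurable]
    have : ∀ᵐ a ∂α, ∫⁻ u, D a u ∂γ ≤ β univ := by
      filter_upwards [hκ_eq] with a ha
      have h2 := ha univ MeasurableSet.univ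
      rw [Measure.restrict_univ] at h2
      rw [← h2, hκ, ker_apply hE a MeasurableSet.univ]
      exact measure_mono (subset_univ _)
    refine (lintegral_mono_ae this).trans_lt ?_
    rw [lintegral_const]
    exact ENNReal.mul_lt_top (measure_lt_top _ _) (measure_lt_top _ _)
  have hKi : Integrable K (α.prod γ) :=
    integrable_toReal_of_lintegral_ne_top hDm.aemeasurable hint.ne
  have hIi : Integrable (fun p : T1 × T1 => (E.indicator (fun _ => (1 : ℝ))) p) (α.prod β) :=
    (integrable_const (1 : ℝ)).indicator hE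
  have hIm : Measurable (fun p : T1 × T1 => (E.indicator (fun _ => (1 : ℝ))) p) :=
    measurable_const.indicator hE
  have he2 : 0 < e / 2 := by positivity
  have hh2 : 0 < h / 2 := by positivity
  obtain ⟨A1, hA1m, hA1, δ1, hδ1, hu1⟩ := approx_unif hKi hKm he2 hh2
  obtain ⟨A2, hA2m, hA2, δ2, hδ2, hu2⟩ := approx_unif hIi hIm he2 hh2
  refine ⟨(A1 ∩ A2) \ N, (hA1m.inter hA2m).diff hNm, ?_, min δ1 δ2, lt_min hδ1 hδ2, ?_⟩
  · have hsub : ((A1 ∩ A2) \ N)ᶜ ⊆ (A1ᶜ ∪ A2ᶜ) ∪ N := by
      intro x hx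
      simp only [mem_compl_iff, Set.mem_sdiff, mem_inter_iff, not_and, not_not, mem_union] at hx ⊢
      by_cases h1 : x ∈ A1
      · by_cases h2 : x ∈ A2
        · exact Or.inr (hx ⟨h1, h2⟩)
        · exact Or.inl (Or.inr h2)
      · exact Or.inl (Or.inl h1)
    refine (measure_mono hsub).trans ((measure_union_le _ _).trans ?_)
    rw [hN0, add_zero]
    refine (measure_union_le _ _).trans ((add_le_add hA1 hA2).trans ?_)
    rw [← ENNReal.ofReal_add hh2.le hh2.le]
    simp
  · intro s hs w hw hsw C hC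
    set s' := s + w with hs'
    have hd : dist s s' < min δ1 δ2 := by
      rw [dist_comm, dist_eq_norm, hs']
      simpa using hw
    have hd' : dist s' s < min δ1 δ2 := by rwa [dist_comm]
    -- the slices differ little
    have hE1 : β (Prod.mk s ⁻¹' E \ Prod.mk s' ⁻¹' E) ≤ ENNReal.ofReal (e / 2) := by
      refine le_trans ?_ (hu2 s hs.1.2 s' hsw.1.2 (hd.trans_le (min_le_right _ _)))
      have hmm : MeasurableSet (Prod.mk s ⁻¹' E \ Prod.mk s' ⁻¹' E) :=
        (measurable_prodMk_left hE).diff (measurable_prodMk_left hE)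
      rw [← lintegral_indicator_one hmm]
      refine lintegral_mono fun t => ?_
      by_cases ht : t ∈ (Prod.mk s ⁻¹' E \ Prod.mk s' ⁻¹' E)
      · have h3 : (s, t) ∈ E := ht.1
        have h4 : (s', t) ∉ E := ht.2
        simp [indicator, ht, h3, h4]
      · simp [indicator, ht]
    -- the densities differ little
    set C' : Set T1 := {u | u - s ∈ C} with hC'
    have hC'm : MeasurableSet C' := (measurable_id.sub_const s) hC
    have hsG : s ∈ G := hNG s hs.2
    have hs'G : s' ∈ G := hNG s' hsw.2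
    have hfin : ∀ᵐ u ∂γ, D s u ≠ ∞ := by
      have h3 := hsG univ MeasurableSet.univ
      rw [Measure.restrict_univ] at h3
      have h4 : ∫⁻ u, D s u ∂γ ≠ ∞ := by
        rw [← h3]
        exact measure_ne_top _ _
      exact (ae_lt_top (hDm.comp measurable_prodMk_left) h4).mono fun u hu => hu.ne
    have hfin' : ∀ᵐ u ∂γ, D s' u ≠ ∞ := by
      have h3 := hs'G univ MeasurableSet.univ
      rw [Measure.restrict_univ] at h3
      have h4 : ∫⁻ u, D s' u ∂γ ≠ ∞ := by
        rw [← h3]
        exact measure_ne_top _ _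
      exact (ae_lt_top (hDm.comp measurable_prodMk_left) h4).mono fun u hu => hu.ne
    have hK1 : κ s' C' ≤ κ s C' + ENNReal.ofReal (e / 2) := by
      rw [hsG C' hC'm, hs'G C' hC'm]
      have h5 := hu1 s' hsw.1.1 s hs.1.1 (hd'.trans_le (min_le_left _ _))
      calc ∫⁻ u in C', D s' u ∂γ
          ≤ ∫⁻ u in C', (D s u + ‖K (s', u) - K (s, u)‖ₑ) ∂γ := by
            refine lintegral_mono_ae (ae_restrict_of_ae ?_)
            filter_upwards [hfin, hfin'] with u hu hu'
            have e1 : D s' u = ENNReal.ofReal (K (s', u)) := by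
              simp only [hKdef]; rw [ENNReal.ofReal_toReal hu']
            have e2 : D s u = ENNReal.ofReal (K (s, u)) := by
              simp only [hKdef]; rw [ENNReal.ofReal_toReal hu]
            rw [e1, e2, Real.enorm_eq_ofReal_abs, ← ENNReal.ofReal_add (by simp [hKdef])
              (abs_nonneg _)]
            apply ENNReal.ofReal_le_ofReal
            have := le_abs_self (K (s', u) - K (s, u))
            linarith
        _ = ∫⁻ u in C', D s u ∂γ + ∫⁻ u in C', ‖K (s', u) - K (s, u)‖ₑ ∂γ :=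
            lintegral_add_left (hDm.comp measurable_prodMk_left) _
        _ ≤ ∫⁻ u in C', D s u ∂γ + ENNReal.ofReal (e / 2) := by
            gcongr
            exact (setLIntegral_le_lintegral _ _).trans h5
    have hks : κ s C' = β (Prod.mk s ⁻¹' E ∩ C) := by
      rw [hκ, ker_apply hE s hC'm]
      congr 1
      ext t
      simp [hC']
    have hks' : κ s' C' = β (Prod.mk s' ⁻¹' E ∩ {t | t + w ∈ C}) := by
      rw [hκ, ker_apply hE s' hC'm]
      congr 1
      ext t
      simp only [hC', mem_inter_iff, mem_preimage, mem_ofPred_eq, hs']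
      have : s + w + t - s = t + w := by abel
      rw [this]
    calc β (Prod.mk s ⁻¹' E ∩ {t | t + w ∈ C})
        ≤ β ((Prod.mk s' ⁻¹' E ∩ {t | t + w ∈ C}) ∪ (Prod.mk s ⁻¹' E \ Prod.mk s' ⁻¹' E)) := by
          refine measure_mono fun t ht => ?_
          by_cases h6 : t ∈ Prod.mk s' ⁻¹' E
          · exact Or.inl ⟨h6, ht.2⟩
          · exact Or.inr ⟨ht.1, h6⟩
      _ ≤ β (Prod.mk s' ⁻¹' E ∩ {t | t + w ∈ C}) + β (Prod.mk s ⁻¹' E \ Prod.mk s' ⁻¹' E) :=
          measure_union_le _ _
      _ ≤ (κ s C' + ENNReal.ofReal (e / 2)) + ENNReal.ofReal (e / 2) := by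
          rw [← hks']
          exact add_le_add hK1 hE1
      _ = β (Prod.mk s ⁻¹' E ∩ C) + ENNReal.ofReal e := by
          rw [hks, add_assoc, ← ENNReal.ofReal_add he2.le he2.le]
          simp

end Pool.Agent.H84.SS
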