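import Pool.Agent.H84.SS.Host1

/-!
# Host's lemma on the circle, part 2: the gap
-/

set_option autoImplicit false

namespace Pool.Agent.H84.SS

open MeasureTheory Filter Topology Set ProbabilityTheory
open scoped ENNReal

/-- real form of `inv_set` -/
theorem inv_set_real {α β γ : Measure T1} [IsFiniteMeasure α] [IsFiniteMeasure β]
    [IsFiniteMeasure γ] {E : Set (T1 × T1)} (hE : MeasurableSet E)
    (hac : ((α.prod β).restrict E).map (fun p => (p.1, p.1 + p.2)) ≪ α.prod γ) {e h : ℝ}
    (he : 0 < e) (hh : 0 < h) :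
    ∃ K₁ : Set T1, MeasurableSet K₁ ∧ α.real K₁ᶜ ≤ h ∧ ∃ δ > 0, ∀ s ∈ K₁, ∀ w : T1,
      ‖w‖ < δ → s + w ∈ K₁ → ∀ C, MeasurableSet C →
        β.real (Prod.mk s ⁻¹' E ∩ {t | t + w ∈ C}) ≤ β.real (Prod.mk s ⁻¹' E ∩ C) + e := by
  obtain ⟨K, hKm, hK, δ, hδ, hu⟩ := inv_set hE hac he hh
  refine ⟨K, hKm, ?_, δ, hδ, fun s hs w hw hsw C hC => ?_⟩
  · rw [Measure.real]
    exact ENNReal.toReal_le_of_le_ofReal hh.le hK
  · have h1 := hu s hs w hw hsw C hC
    simp only [Measure.real]
    refine (ENNReal.toReal_mono (by finiteness) h1).trans ?_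
    rw [ENNReal.toReal_add (by finiteness) (by finiteness), ENNReal.toReal_ofReal he.le]

/-- a rectangle with a side in which all slices are almost full -/
theorem rectangle {α β : Measure T1} [IsFiniteMeasure α] [IsFiniteMeasure β]
    {E : Set (T1 × T1)} (hE : MeasurableSet E) (h0 : (α.prod β) E ≠ 0) {k : ℝ} (hk : 0 < k) :
    ∃ A B : Set T1, MeasurableSet A ∧ MeasurableSet B ∧ 0 < α.real A ∧ 0 < β.real B ∧
      ∀ s ∈ A, β.real (B \ Prod.mk s ⁻¹' E) ≤ k * β.real B := by
  have hmeas : Measurable fun s => β (Prod.mk s ⁻¹' E) := measurable_measure_prodMk_left hE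
  have h1 : ¬ (∀ᵐ s ∂α, β (Prod.mk s ⁻¹' E) = 0) := by
    intro h
    apply h0
    rw [Measure.prod_apply hE]
    exact (lintegral_eq_zero_iff hmeas).mpr h
  have h2 : ∃ n : ℕ, α {s | (1 / ((n : ℝ) + 1)) ≤ β.real (Prod.mk s ⁻¹' E)} ≠ 0 := by
    by_contra hc
    push Not at hc
    apply h1
    have h3 := ae_all_iff.mpr fun n : ℕ => (ae_iff (μ := α)
      (p := fun s => ¬ (1 / ((n : ℝ) + 1)) ≤ β.real (Prod.mk s ⁻¹' E))).mpr (by
        simpa using hc n)
    filter_upwards [h3] with s hs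
    by_contra hne
    have h4 : 0 < β.real (Prod.mk s ⁻¹' E) := by
      rw [Measure.real]
      exact ENNReal.toReal_pos hne (measure_ne_top _ _)
    obtain ⟨n, hn⟩ := exists_nat_one_div_lt h4
    exact hs n hn.le
  obtain ⟨n, hn⟩ := h2
  set c : ℝ := 1 / ((n : ℝ) + 1) with hc
  have hc0 : 0 < c := by positivity
  set P : Set T1 := {s | c ≤ β.real (Prod.mk s ⁻¹' E)} with hP
  have hPm : MeasurableSet P := measurableSet_le measurable_const hmeas.ennreal_toReal
  have hPpos : 0 < α.real P := by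
    rw [Measure.real]
    exact ENNReal.toReal_pos hn (measure_ne_top _ _)
  have hIi : Integrable (fun p : T1 × T1 => (E.indicator (fun _ => (1 : ℝ))) p) (α.prod β) :=
    (integrable_const (1 : ℝ)).indicator hE
  have hIm : Measurable (fun p : T1 × T1 => (E.indicator (fun _ => (1 : ℝ))) p) :=
    measurable_const.indicator hE
  obtain ⟨K, hKm, hK, δ, hδ, hu⟩ := approx_unif (e := k * c) (h := α.real P / 2) hIi hIm
    (by positivity) (by positivity)
  have hPK : α (P ∩ K) ≠ 0 := by
    intro h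
    have h5 : α P ≤ ENNReal.ofReal (α.real P / 2) := by
      calc α P ≤ α ((P ∩ K) ∪ Kᶜ) := measure_mono fun x hx => by
            by_cases hxK : x ∈ K
            · exact Or.inl ⟨hx, hxK⟩
            · exact Or.inr hxK
        _ ≤ α (P ∩ K) + α Kᶜ := measure_union_le _ _
        _ ≤ ENNReal.ofReal (α.real P / 2) := by rw [h, zero_add]; exact hK
    have h6 : α.real P ≤ α.real P / 2 := by
      rw [Measure.real] at hPpos ⊢
      exact ENNReal.toReal_le_of_le_ofReal (by positivity) h5
    linarith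
  obtain ⟨x, hx, hpos⟩ := exists_mem_forall_mem_nhdsWithin_pos_measure hPK
  have hball : Metric.ball x δ ∩ (P ∩ K) ∈ 𝓝[P ∩ K] x :=
    inter_mem (mem_nhdsWithin_of_mem_nhds (Metric.ball_mem_nhds x hδ)) self_mem_nhdsWithin
  refine ⟨Metric.ball x δ ∩ (P ∩ K), Prod.mk x ⁻¹' E, measurableSet_ball.inter (hPm.inter hKm),
    measurable_prodMk_left hE, ?_, hc0.trans_le hx.1, ?_⟩
  · rw [Measure.real]
    exact ENNReal.toReal_pos (hpos _ hball).ne' (measure_ne_top _ _)
  · intro s hs
    have h7 := hu x hx.2 s hs.2.2 (by rw [dist_comm]; exact hs.1)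
    have hmm : MeasurableSet (Prod.mk x ⁻¹' E \ Prod.mk s ⁻¹' E) :=
      (measurable_prodMk_left hE).diff (measurable_prodMk_left hE)
    have h8 : β (Prod.mk x ⁻¹' E \ Prod.mk s ⁻¹' E) ≤ ENNReal.ofReal (k * c) := by
      refine le_trans ?_ h7
      rw [← lintegral_indicator_one hmm]
      refine lintegral_mono fun t => ?_
      by_cases ht : t ∈ (Prod.mk x ⁻¹' E \ Prod.mk s ⁻¹' E)
      · have h3 : (x, t) ∈ E := ht.1
        have h4 : (s, t) ∉ E := ht.2
        simp [indicator, ht, h3, h4]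
      · simp [indicator, ht]
    have h9 : β.real (Prod.mk x ⁻¹' E \ Prod.mk s ⁻¹' E) ≤ k * c := by
      rw [Measure.real]
      exact ENNReal.toReal_le_of_le_ofReal (by positivity) h8
    refine h9.trans ?_
    exact mul_le_mul_of_nonneg_left hx.1 hk.le

/-- data of the gap argument -/
theorem gap {α β γ : Measure T1} [IsFiniteMeasure α] [IsFiniteMeasure β] [IsFiniteMeasure γ]
    {E : Set (T1 × T1)} (hE : MeasurableSet E)
    (h1 : ((α.prod β).restrict E).map (fun p => (p.1, p.1 + p.2)) ≪ α.prod γ)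
    (h2 : ((α.prod β).restrict E).map (fun p => (p.2, p.1 + p.2)) ≪ β.prod γ)
    (h0 : (α.prod β) E ≠ 0) :
    ∃ A K : Set T1, MeasurableSet A ∧ MeasurableSet K ∧ 0 < α.real A ∧
      α.real Kᶜ ≤ α.real A / 100 ∧ ∃ δ > 0, ∀ w : T1, ‖w‖ < δ →
        (∃ s ∈ A ∩ K, s + w ∈ K) → ∀ C, MeasurableSet C →
          α.real (A ∩ {s | s + w ∈ C}) ≤ α.real (A ∩ C) + 11 / 100 * α.real A := by
  obtain ⟨A, B, hA, hB, ha, hb, hrect⟩ := rectangle hE h0 (k := 1 / 100) (by norm_num)
  set a := α.real A with hadef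
  set b := β.real B with hbdef
  set E' : Set (T1 × T1) := E ∩ A ×ˢ B with hE'
  have hE'm : MeasurableSet E' := hE.inter (hA.prod hB)
  have hle : (α.prod β).restrict E' ≤ (α.prod β).restrict E :=
    Measure.restrict_mono inter_subset_left le_rfl
  have hm1 : Measurable fun p : T1 × T1 => (p.1, p.1 + p.2) := by fun_prop
  have hm2 : Measurable fun p : T1 × T1 => (p.2, p.1 + p.2) := by fun_prop
  have h1' : ((α.prod β).restrict E').map (fun p => (p.1, p.1 + p.2)) ≪ α.prod γ :=
    ((Measure.map_mono hle hm1).absolutelyContinuous).trans h1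
  have h2' : ((α.prod β).restrict E').map (fun p => (p.2, p.1 + p.2)) ≪ β.prod γ :=
    ((Measure.map_mono hle hm2).absolutelyContinuous).trans h2
  set E'' : Set (T1 × T1) := Prod.swap ⁻¹' E' with hE''
  have hE''m : MeasurableSet E'' := measurable_swap hE'm
  have h2'' : ((β.prod α).restrict E'').map (fun p => (p.1, p.1 + p.2)) ≪ β.prod γ := by
    have e1 : (β.prod α).restrict E'' = ((α.prod β).restrict E').map Prod.swap := by
      rw [← Measure.prod_swap (μ := α) (ν := β)]
      rw [Measure.restrict_map measurable_swap hE''m]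
      congr 2
    rw [e1, Measure.map_map hm1 measurable_swap]
    have e2 : (fun p : T1 × T1 => (p.1, p.1 + p.2)) ∘ Prod.swap = fun p => (p.2, p.1 + p.2) := by
      ext p
      · rfl
      · simp [add_comm]
    rw [e2]
    exact h2'
  obtain ⟨K₁, hK1m, hK1, δ1, hδ1, hu1⟩ := inv_set_real (e := b / 100) (h := a / 100) hE'm h1'
    (by positivity) (by positivity)
  obtain ⟨K₂, hK2m, hK2, δ2, hδ2, hu2⟩ := inv_set_real (e := a / 100) (h := b / 100) hE''m h2''
    (by positivity) (by positivity)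
  refine ⟨A, K₁, hA, hK1m, ha, hK1, min δ1 δ2, lt_min hδ1 hδ2, ?_⟩
  rintro w hw ⟨s, hs, hsw⟩ C hC
  -- slices
  have hsl : Prod.mk s ⁻¹' E' = Prod.mk s ⁻¹' E ∩ B := by
    ext t
    simp only [hE', mem_preimage, mem_inter_iff, mem_prod]
    exact ⟨fun h => ⟨h.1, h.2.2⟩, fun h => ⟨h.1, hs.1, h.2⟩⟩
  have hslm : ∀ u : T1, MeasurableSet (Prod.mk u ⁻¹' E') := fun u => measurable_prodMk_left hE'm
  -- the bad set of t
  have hswap : ∀ t u : T1, u ∈ Prod.mk t ⁻¹' E'' ↔ (u, t) ∈ E' := fun t u => Iff.rfl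
  set Q : Set T1 := {t | t ∈ B ∧ a / 10 ≤ α.real (A \ Prod.mk t ⁻¹' E'')} with hQ
  have hQb : β.real Q ≤ b / 10 := by
    have hmeasf : Measurable fun t => α (A \ Prod.mk t ⁻¹' E'') := by
      have e3 : ∀ t : T1, A \ Prod.mk t ⁻¹' E'' = Prod.mk t ⁻¹' ((univ ×ˢ A) \ E'') := by
        intro t
        ext u
        simp
      simp only [e3]
      exact measurable_measure_prodMk_left ((MeasurableSet.univ.prod hA).diff hE''m)
    have hQm : MeasurableSet Q :=
      hB.inter (measurableSet_le measurable_const hmeasf.ennreal_toReal)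
    have key : ∫⁻ t in B, α (A \ Prod.mk t ⁻¹' E'') ∂β ≤ ENNReal.ofReal (b / 100) * α A := by
      have e4 : ∫⁻ t in B, α (A \ Prod.mk t ⁻¹' E'') ∂β = (β.prod α) ((B ×ˢ A) \ E'') := by
        rw [Measure.prod_apply ((hB.prod hA).diff hE''m), ← lintegral_indicator hB]
        refine lintegral_congr fun t => ?_
        by_cases ht : t ∈ B
        · rw [indicator_of_mem ht]
          congr 1
          ext u
          simp [ht]
        · rw [indicator_of_notMem ht]
          have : Prod.mk t ⁻¹' ((B ×ˢ A) \ E'') = ∅ := by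
            ext u
            simp [ht]
          rw [this, measure_empty]
      have e5 : (β.prod α) ((B ×ˢ A) \ E'') = (α.prod β) ((A ×ˢ B) \ E') := by
        rw [← Measure.prod_swap (μ := α) (ν := β), Measure.map_apply measurable_swap
          ((hB.prod hA).diff hE''m)]
        congr 1
        ext p
        simp only [hE'', mem_preimage, Set.mem_sdiff, mem_prod, Prod.swap_swap]
        simp [and_comm]
      rw [e4, e5, Measure.prod_apply ((hA.prod hB).diff hE'm)]
      calc ∫⁻ u, β (Prod.mk u ⁻¹' ((A ×ˢ B) \ E')) ∂α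
          ≤ ∫⁻ u, A.indicator (fun _ => ENNReal.ofReal (b / 100)) u ∂α := by
            refine lintegral_mono fun u => ?_
            by_cases hu : u ∈ A
            · rw [indicator_of_mem hu]
              have e6 : Prod.mk u ⁻¹' ((A ×ˢ B) \ E') = B \ Prod.mk u ⁻¹' E := by
                ext t
                simp only [hE', mem_preimage, Set.mem_sdiff, mem_prod, mem_inter_iff]
                tauto
              rw [e6]
              have h7 := hrect u hu
              rw [← ofReal_measureReal]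
              apply ENNReal.ofReal_le_ofReal
              rw [div_eq_inv_mul]
              linarith
            · rw [indicator_of_notMem hu]
              have : Prod.mk u ⁻¹' ((A ×ˢ B) \ E') = ∅ := by
                ext t
                simp [hu]
              rw [this, measure_empty]
        _ = ENNReal.ofReal (b / 100) * α A := by
            rw [lintegral_indicator hA, setLIntegral_const]
    have hmark := mul_meas_ge_le_lintegral (μ := β.restrict B) hmeasf (ENNReal.ofReal (a / 10))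
    have h8 : ENNReal.ofReal (a / 10) * β Q ≤ ENNReal.ofReal (b / 100) * α A := by
      refine le_trans (mul_le_mul_right ?_ _) (hmark.trans key)
      rw [Measure.restrict_apply (measurableSet_le measurable_const hmeasf)]
      refine measure_mono fun t ht => ⟨?_, ht.1⟩
      have h9 : a / 10 ≤ α.real (A \ Prod.mk t ⁻¹' E'') := ht.2
      change ENNReal.ofReal (a / 10) ≤ α (A \ Prod.mk t ⁻¹' E'')
      rw [← ofReal_measureReal]
      exact ENNReal.ofReal_le_ofReal h9
    have h10 : (a / 10) * β.real Q ≤ (b / 100) * a := by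
      have h11 := ENNReal.toReal_mono (by finiteness) h8
      rw [ENNReal.toReal_mul, ENNReal.toReal_mul, ENNReal.toReal_ofReal (by positivity),
        ENNReal.toReal_ofReal (by positivity)] at h11
      exact h11
    have h12 : a * β.real Q ≤ a * (b / 10) := by nlinarith
    exact le_of_mul_le_mul_left h12 ha
  -- a good t
  have hgood : ∃ t ∈ B, t ∈ Prod.mk s ⁻¹' E' ∧ t ∈ K₂ ∧ t + w ∈ K₂ ∧ t ∉ Q := by
    by_contra hc
    push Not at hc
    have hcov : B ⊆ (B \ Prod.mk s ⁻¹' E) ∪ K₂ᶜ ∪ (Prod.mk s ⁻¹' E' ∩ {t | t + w ∈ K₂ᶜ}) ∪ Q := by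
      intro t ht
      by_cases c1 : t ∈ Prod.mk s ⁻¹' E
      · have c1' : t ∈ Prod.mk s ⁻¹' E' := by rw [hsl]; exact ⟨c1, ht⟩
        by_cases c2 : t ∈ K₂
        · by_cases c3 : t + w ∈ K₂
          · exact Or.inr (hc t ht c1' c2 c3)
          · exact Or.inl (Or.inr ⟨c1', c3⟩)
        · exact Or.inl (Or.inl (Or.inr c2))
      · exact Or.inl (Or.inl (Or.inl ⟨ht, c1⟩))
    have h13 := measureReal_mono (μ := β) hcov (by finiteness)
    have h14 : β.real ((B \ Prod.mk s ⁻¹' E) ∪ K₂ᶜ ∪ (Prod.mk s ⁻¹' E' ∩ {t | t + w ∈ K₂ᶜ}) ∪ Q) ≤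
        β.real (B \ Prod.mk s ⁻¹' E) + β.real K₂ᶜ +
          β.real (Prod.mk s ⁻¹' E' ∩ {t | t + w ∈ K₂ᶜ}) + β.real Q := by
      refine (measureReal_union_le _ _).trans ?_
      gcongr
      refine (measureReal_union_le _ _).trans ?_
      gcongr
      exact measureReal_union_le _ _
    have h15 := hu1 s hs.2 w (hw.trans_le (min_le_left _ _)) hsw _ hK2m.compl
    have h16 : β.real (Prod.mk s ⁻¹' E' ∩ K₂ᶜ) ≤ β.real K₂ᶜ :=
      measureReal_mono inter_subset_right (by finiteness)
    have h17 := hrect s hs.1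
    linarith
  obtain ⟨t, htB, -, htK, htwK, htQ⟩ := hgood
  have ht10 : α.real (A \ Prod.mk t ⁻¹' E'') < a / 10 := by
    by_contra hc
    exact htQ ⟨htB, not_lt.mp hc⟩
  have h18 := hu2 t htK w (hw.trans_le (min_le_right _ _)) htwK C hC
  have h19 : α.real (A ∩ {s | s + w ∈ C}) ≤
      α.real (Prod.mk t ⁻¹' E'' ∩ {s | s + w ∈ C}) + α.real (A \ Prod.mk t ⁻¹' E'') := by
    refine (measureReal_mono ?_ (by finiteness)).trans (measureReal_union_le _ _)
    intro u hu
    by_cases c4 : u ∈ Prod.mk t ⁻¹' E''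
    · exact Or.inl ⟨c4, hu.2⟩
    · exact Or.inr ⟨hu.1, c4⟩
  have h20 : α.real (Prod.mk t ⁻¹' E'' ∩ C) ≤ α.real (A ∩ C) := by
    refine measureReal_mono ?_ (by finiteness)
    intro u hu
    exact ⟨((hswap t u).mp hu.1).2.1, hu.2⟩
  linarith

end Pool.Agent.H84.SS
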