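import Pool.Agent.H84.SS.Tools
import Pool.Agent.H94.RTB.Targets3

/-!
# Return times for double recurrence, singular spectrum: targets of the parts D, M, A
-/

set_option autoImplicit false

namespace Pool.Agent.H84.SS

open MeasureTheory Filter Topology Set ProbabilityTheory
open scoped ENNReal ComplexConjugate
open Pool.Agent.H85.RT (avg GoodWeight Good)
open Pool.Agent.H94.RTB (LGood PD)

universe u v

/-! ## Part D: the deterministic lemma -/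

/-- the quadratic form with integer indices -/
noncomputable def qz (p q : ℤ → ℂ) (s : Finset (ℤ × ℤ)) (u : ℤ × ℤ → ℂ) : ℂ :=
  ∑ i ∈ s, ∑ j ∈ s, u i * conj (u j) * p (i.1 - j.1) * q (i.2 - j.2)

/-- D1: the quadratic form is a square norm -/
def D_QF : Prop := ∀ (σ σ' : Measure T1) [IsFiniteMeasure σ] [IsFiniteMeasure σ'] (p q : ℤ → ℂ),
  IsHat σ p → IsHat σ' q → ∀ (s : Finset (ℤ × ℤ)) (u : ℤ × ℤ → ℂ),
    (qz p q s u).re = ∫ z, ‖∑ i ∈ s, u i * ch i.1 i.2 z‖ ^ 2 ∂(σ.prod σ')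

/-- D2: Riesz representation of a functional on trigonometric polynomials -/
def D_RSZ : Prop := ∀ (ν : Measure (T1 × T1)) [IsFiniteMeasure ν] (C : ℝ) (r : ℤ × ℤ → ℂ), 0 ≤ C →
  (∀ (s : Finset (ℤ × ℤ)) (u : ℤ × ℤ → ℂ),
    ‖∑ i ∈ s, u i * r i‖ ^ 2 ≤ C * ∫ z, ‖∑ i ∈ s, u i * ch i.1 i.2 z‖ ^ 2 ∂ν) →
    ∃ G : T1 × T1 → ℂ, Measurable G ∧ MemLp G 2 ν ∧ ∫ z, ‖G z‖ ^ 2 ∂ν ≤ C ∧
      ∀ i : ℤ × ℤ, ∫ z, ch i.1 i.2 z * G z ∂ν = r i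

/-- D3: uniqueness of Fourier coefficients of complex measures on the torus -/
def D_UNI : Prop := ∀ (ν ν' : Measure (T1 × T1)) [IsFiniteMeasure ν] [IsFiniteMeasure ν']
  (G G' : T1 × T1 → ℂ), Integrable G ν → Integrable G' ν' →
    (∀ a b : ℤ, ∫ z, ch a b z * G z ∂ν = ∫ z, ch a b z * G' z ∂ν') →
      ∀ D : Set (T1 × T1), MeasurableSet D → ∫ z in D, G z ∂ν = ∫ z in D, G' z ∂ν'

/-- D4: extension of the triple to integer indices -/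
def D_EXT : Prop := ∀ (C₁₂ C₁₃ C₂₃ : ℝ) (p₁ p₂ p₃ : ℤ → ℂ) (r : ℕ → ℕ → ℕ → ℂ),
  Trip C₁₂ C₁₃ C₂₃ p₁ p₂ p₃ r → ∃ R : ℤ → ℤ → ℤ → ℂ, R 0 0 0 = r 0 0 0 ∧
    (∀ a b c k, R (a + k) (b + k) (c + k) = R a b c) ∧
    (∀ (s : Finset (ℤ × ℤ)) (u : ℤ × ℤ → ℂ),
      ‖∑ i ∈ s, u i * R i.1 i.2 0‖ ^ 2 ≤ C₁₂ * (qz p₁ p₂ s u).re) ∧
    (∀ (s : Finset (ℤ × ℤ)) (u : ℤ × ℤ → ℂ),
      ‖∑ i ∈ s, u i * R i.1 0 i.2‖ ^ 2 ≤ C₁₃ * (qz p₁ p₃ s u).re) ∧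
    (∀ (s : Finset (ℤ × ℤ)) (u : ℤ × ℤ → ℂ),
      ‖∑ i ∈ s, u i * R 0 i.1 i.2‖ ^ 2 ≤ C₂₃ * (qz p₂ p₃ s u).re)

/-- D5: the density and its absolutely continuous projections -/
def D_ACP : Prop := ∀ (σ₁ σ₂ σ₃ : Measure T1) [IsFiniteMeasure σ₁] [IsFiniteMeasure σ₂]
  [IsFiniteMeasure σ₃] (C₁₂ C₁₃ C₂₃ : ℝ) (p₁ p₂ p₃ : ℤ → ℂ) (R : ℤ → ℤ → ℤ → ℂ),
  0 ≤ C₁₂ → 0 ≤ C₁₃ → 0 ≤ C₂₃ → IsHat σ₁ p₁ → IsHat σ₂ p₂ → IsHat σ₃ p₃ →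
    (∀ a b c k, R (a + k) (b + k) (c + k) = R a b c) →
    (∀ (s : Finset (ℤ × ℤ)) (u : ℤ × ℤ → ℂ),
      ‖∑ i ∈ s, u i * R i.1 i.2 0‖ ^ 2 ≤ C₁₂ * (qz p₁ p₂ s u).re) →
    (∀ (s : Finset (ℤ × ℤ)) (u : ℤ × ℤ → ℂ),
      ‖∑ i ∈ s, u i * R i.1 0 i.2‖ ^ 2 ≤ C₁₃ * (qz p₁ p₃ s u).re) →
    (∀ (s : Finset (ℤ × ℤ)) (u : ℤ × ℤ → ℂ),
      ‖∑ i ∈ s, u i * R 0 i.1 i.2‖ ^ 2 ≤ C₂₃ * (qz p₂ p₃ s u).re) →
    ∃ G : T1 × T1 → ℂ, Measurable G ∧ MemLp G 2 (σ₁.prod σ₂) ∧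
      ∫ z, ‖G z‖ ^ 2 ∂(σ₁.prod σ₂) ≤ C₁₂ ∧ ∫ z, G z ∂(σ₁.prod σ₂) = R 0 0 0 ∧
      ((σ₁.prod σ₂).restrict {z | G z ≠ 0}).map (fun z => (z.1, z.1 + z.2)) ≪
        σ₁.prod (σ₃.map (fun t => -t)) ∧
      ((σ₁.prod σ₂).restrict {z | G z ≠ 0}).map (fun z => (z.2, z.1 + z.2)) ≪
        σ₂.prod (σ₃.map (fun t => -t))

/-- D6: the deterministic lemma -/
def D_DET : Prop := ∀ (C₁₂ C₁₃ C₂₃ : ℝ) (p₁ p₂ p₃ : ℤ → ℂ) (r : ℕ → ℕ → ℕ → ℂ)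
  (σ : Measure T1) [IsFiniteMeasure σ], 0 ≤ C₁₂ → 0 ≤ C₁₃ → 0 ≤ C₂₃ →
    Trip C₁₂ C₁₃ C₂₃ p₁ p₂ p₃ r → IsHat σ p₁ → σ ⟂ₘ (volume : Measure T1) → PD p₂ → PD p₃ →
      ‖r 0 0 0‖ ^ 2 ≤ C₁₂ * (σ.real (atoms σ) * (p₂ 0).re)

/-- D7: the deterministic lemma with the second measure singular -/
def D_DTF : Prop := ∀ (C₁₂ C₁₃ C₂₃ : ℝ) (p₁ p₂ p₃ : ℤ → ℂ) (r : ℕ → ℕ → ℕ → ℂ)
  (σ : Measure T1) [IsFiniteMeasure σ], 0 ≤ C₁₂ → 0 ≤ C₁₃ → 0 ≤ C₂₃ →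
    Trip C₁₂ C₁₃ C₂₃ p₁ p₂ p₃ r → IsHat σ p₂ → σ ⟂ₘ (volume : Measure T1) → PD p₁ → PD p₃ →
      ‖r 0 0 0‖ ^ 2 ≤ C₁₂ * (σ.real (atoms σ) * (p₁ 0).re)

/-! ## Part M: the limit functional -/

/-- M1: random times at which the averages are large -/
def M_STO : Prop := ∀ (X : Type u) [MeasurableSpace X] (T : X ≃ᵐ X) (f g : X → ℂ) (w : ℕ → ℂ)
  (δ : ℝ), Measurable f → Measurable g → 0 < δ →
    ∃ (N : ℕ → X → ℕ) (θ : ℕ → X → ℂ), RTimes N θ ∧ ∀ i x, ∃ r : ℝ, 0 ≤ r ∧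
      ph T f g w (N i) (θ i) 0 0 0 x = r ∧ ((∃ᶠ M in atTop, δ < ‖avg T f g w M x‖) → δ ≤ r)

/-- M2: weak limits of conditional expectations along the ultrafilter -/
def M_WKL : Prop := ∀ (X : Type u) (I : MeasurableSpace X) [m0 : MeasurableSpace X]
  (μ : Measure X) [IsProbabilityMeasure μ], I ≤ m0 → ∀ (φ : ℕ → X → ℂ) (B : ℝ),
    (∀ i, Measurable (φ i)) → (∀ i x, ‖φ i x‖ ≤ B) →
      ∃ R : X → ℂ, StronglyMeasurable[I] R ∧ Integrable R μ ∧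
        ∀ Q, MeasurableSet[I] Q → Tendsto (fun i => ∫ x in Q, φ i x ∂μ) (hyperfilter ℕ)
          (𝓝 (∫ x in Q, R x ∂μ))

/-- M3: existence of the limit functional -/
def M_LIM : Prop := ∀ (X : Type u) [MeasurableSpace X] (μ : Measure X) [IsProbabilityMeasure μ]
  (T : X ≃ᵐ X) (f g : X → ℂ) (w : ℕ → ℂ) (B : ℝ) (N : ℕ → X → ℕ) (θ : ℕ → X → ℂ),
    Measurable f → Measurable g → (∀ x, ‖f x‖ ≤ 1) → (∀ x, ‖g x‖ ≤ 1) → (∀ n, ‖w n‖ ≤ B) →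
      RTimes N θ → ∃ R, IsLim μ T f g w N θ R

/-- M4: invariance of the limit functional -/
def M_INV : Prop := ∀ (X : Type u) [MeasurableSpace X] (μ : Measure X) [IsProbabilityMeasure μ]
  (T : X ≃ᵐ X) (f g : X → ℂ) (w : ℕ → ℂ) (B : ℝ) (N : ℕ → X → ℕ) (θ : ℕ → X → ℂ)
  (R : ℕ → ℕ → ℕ → X → ℂ),
    Measurable f → Measurable g → (∀ x, ‖f x‖ ≤ 1) → (∀ x, ‖g x‖ ≤ 1) → (∀ n, ‖w n‖ ≤ B) →
      RTimes N θ → IsLim μ T f g w N θ R →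
        ∀ᵐ x ∂μ, ∀ a b c, R (a + 1) (b + 1) (c + 1) x = R a b c x

/-- M5: the Cauchy-Schwarz bound at random times -/
def M_CSR : Prop := ∀ (X : Type u) [MeasurableSpace X] (μ : Measure X) [IsProbabilityMeasure μ]
  (y z : ℕ → X → ℂ) (Y K : ℝ) (N : ℕ → X → ℕ) (θ : ℕ → X → ℂ) (Q : Set X),
    (∀ n, Measurable (y n)) → (∀ n, Measurable (z n)) → (∀ n x, ‖y n x‖ ≤ Y) →
      (∀ n x, ‖z n x‖ ≤ K) → RTimes N θ → MeasurableSet Q →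
      (∀ᵐ x ∂μ, ∃ l : ℝ, Tendsto (fun M : ℕ => (∑ n ∈ Finset.Icc 1 M, ‖y n x‖ ^ 2) / M) atTop
        (𝓝 l)) →
      ∀ (ℓ : ℂ) (Λ : ℝ), Tendsto (fun i => ∫ x in Q, θ i x * ((∑ n ∈ Finset.Icc 1 (N i x),
        y n x * z n x) / (N i x : ℂ)) ∂μ) (hyperfilter ℕ) (𝓝 ℓ) →
      Tendsto (fun M : ℕ => ∫ x in Q, (∑ n ∈ Finset.Icc 1 M, ‖y n x‖ ^ 2) / M ∂μ) atTop (𝓝 Λ) →
        ‖ℓ‖ ^ 2 ≤ K ^ 2 * (μ.real Q * Λ)

/-- M6: the square averages of `w` against `f` converge almost everywhere -/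
def M_SQA : Prop := ∀ (B : ℝ) (w : ℕ → ℂ) (p : ℤ → ℂ), WGood.{u} B w p →
  ∀ (X : Type u) [MeasurableSpace X] (μ : Measure X) [IsProbabilityMeasure μ] (T : X ≃ᵐ X)
    (f : X → ℂ), MeasurePreserving T μ μ → Measurable f → (∀ x, ‖f x‖ ≤ 1) →
      ∀ (s : Finset (ℕ × ℕ)) (u : ℕ × ℕ → ℂ), ∀ᵐ x ∂μ, ∃ l : ℝ,
        Tendsto (fun M : ℕ => (∑ n ∈ Finset.Icc 1 M,
          ‖∑ i ∈ s, u i * (w (n + i.1) * f (T^[n + i.2] x))‖ ^ 2) / M) atTop (𝓝 l)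

/-- M7: the integrals of the square averages of `w` against `f` over invariant sets -/
def M_SQB : Prop := ∀ (B : ℝ) (w : ℕ → ℂ) (p : ℤ → ℂ), WGood.{u} B w p →
  ∀ (X : Type u) [MeasurableSpace X] (μ : Measure X) [IsProbabilityMeasure μ] (T : X ≃ᵐ X)
    (f : X → ℂ), MeasurePreserving T μ μ → Measurable f → (∀ x, ‖f x‖ ≤ 1) →
      ∀ (s : Finset (ℕ × ℕ)) (u : ℕ × ℕ → ℂ) (Q : Set X),
        MeasurableSet[MeasurableSpace.invariants T] Q →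
        Tendsto (fun M : ℕ => ∫ x in Q, (∑ n ∈ Finset.Icc 1 M,
          ‖∑ i ∈ s, u i * (w (n + i.1) * f (T^[n + i.2] x))‖ ^ 2) / M ∂μ) atTop
          (𝓝 (∫ x in Q, (∑ i ∈ s, ∑ j ∈ s, u i * conj (u j) * p ((i.1 : ℤ) - j.1) *
            cf μ T f i.2 j.2 x).re ∂μ))

/-- M8: the square averages of `f` against `g` converge almost everywhere -/
def M_SQC : Prop := ∀ (X : Type u) [MeasurableSpace X] (μ : Measure X) [IsProbabilityMeasure μ]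
  (T : X ≃ᵐ X) (f g : X → ℂ), DRfg μ T f g → ∀ (s : Finset (ℕ × ℕ)) (u : ℕ × ℕ → ℂ),
    ∀ᵐ x ∂μ, ∃ l : ℝ, Tendsto (fun M : ℕ => (∑ n ∈ Finset.Icc 1 M,
      ‖∑ i ∈ s, u i * (f (T^[n + i.1] x) * g (T.symm^[n + i.2] x))‖ ^ 2) / M) atTop (𝓝 l)

/-- M9: mean ergodic theorem for the product of two functions over invariant sets -/
def M_MEP : Prop := ∀ (X : Type u) [MeasurableSpace X] (μ : Measure X) [IsProbabilityMeasure μ]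
  (T : X ≃ᵐ X) (F G : X → ℂ) (C : ℝ), MeasurePreserving T μ μ → Measurable F → Measurable G →
    (∀ x, ‖F x‖ ≤ C) → (∀ x, ‖G x‖ ≤ C) → ∀ Q, MeasurableSet[MeasurableSpace.invariants T] Q →
      Tendsto (fun M : ℕ => (∑ n ∈ Finset.Icc 1 M, ∫ x in Q, F (T^[n] x) * G x ∂μ) / (M : ℂ)) atTop
        (𝓝 (∫ x in Q, (μ[F | MeasurableSpace.invariants T]) x *
          (μ[G | MeasurableSpace.invariants T]) x ∂μ))

/-- M10: the integrals of the square averages of `f` against `g` over invariant sets -/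
def M_SQD : Prop := ∀ (X : Type u) [MeasurableSpace X] (μ : Measure X) [IsProbabilityMeasure μ]
  (T : X ≃ᵐ X) (f g : X → ℂ), MeasurePreserving T μ μ → Measurable f → Measurable g →
    (∀ x, ‖f x‖ ≤ 1) → (∀ x, ‖g x‖ ≤ 1) → ∀ (s : Finset (ℕ × ℕ)) (u : ℕ × ℕ → ℂ) (Q : Set X)
      (Λ : ℝ), MeasurableSet[MeasurableSpace.invariants T] Q →
        Tendsto (fun M : ℕ => ∫ x in Q, (∑ n ∈ Finset.Icc 1 M,
          ‖∑ i ∈ s, u i * (f (T^[n + i.1] x) * g (T.symm^[n + i.2] x))‖ ^ 2) / M ∂μ) atTop (𝓝 Λ) →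
        Λ ≤ 2 * ∫ x in Q, (∑ i ∈ s, ∑ j ∈ s, u i * conj (u j) *
            cf μ T f i.1 j.1 x * cf μ T.symm g i.2 j.2 x).re ∂μ

/-- M11: from inequalities on sets to inequalities almost everywhere -/
def M_AEI : Prop := ∀ (X : Type u) (I : MeasurableSpace X) [m0 : MeasurableSpace X]
  (μ : Measure X) [IsProbabilityMeasure μ], I ≤ m0 → ∀ (R : X → ℂ) (V : X → ℝ),
    StronglyMeasurable[I] R → StronglyMeasurable[I] V → Integrable R μ → Integrable V μ →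
      (∀ Q, MeasurableSet[I] Q → ‖∫ x in Q, R x ∂μ‖ ^ 2 ≤ μ.real Q * ∫ x in Q, V x ∂μ) →
        ∀ᵐ x ∂μ, ‖R x‖ ^ 2 ≤ V x

/-- M12: uniformity in countably many parameters by continuity -/
def M_CTS : Prop := ∀ (X : Type u) [MeasurableSpace X] (μ : Measure X) (ι : Type) [Fintype ι]
  (F G : X → (ι → ℂ) → ℝ), (∀ x, Continuous (F x)) → (∀ x, Continuous (G x)) →
    (∀ u, ∀ᵐ x ∂μ, F x u ≤ G x u) → ∀ᵐ x ∂μ, ∀ u, F x u ≤ G x u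

/-- M13: shift invariance of the conditional correlations -/
def M_PFE : Prop := ∀ (X : Type u) [MeasurableSpace X] (μ : Measure X) [IsProbabilityMeasure μ]
  (T : X ≃ᵐ X) (f : X → ℂ), MeasurePreserving T μ μ → Measurable f → (∀ x, ‖f x‖ ≤ 1) →
    ∀ᵐ x ∂μ, (∀ b b' : ℕ, cf μ T f b b' x = pf μ T f x ((b : ℤ) - b')) ∧
      (pf μ T f x 0).re ≤ 1

/-- M14: the conditional correlations are positive definite -/
def M_PDX : Prop := ∀ (X : Type u) [MeasurableSpace X] (μ : Measure X) [IsProbabilityMeasure μ]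
  (T : X ≃ᵐ X) (f : X → ℂ), MeasurePreserving T μ μ → Measurable f → (∀ x, ‖f x‖ ≤ 1) →
    ∀ᵐ x ∂μ, PD (pf μ T f x)

/-- M20: the correlations of a good weight are positive definite -/
def M_PDP : Prop := ∀ (B : ℝ) (w : ℕ → ℂ) (p : ℤ → ℂ), WGood.{u} B w p →
  PD p ∧ (p 0).re ≤ B ^ 2

/-- M15: the first pair bound -/
def M_B12 : Prop := ∀ (X : Type u) [MeasurableSpace X] (μ : Measure X) [IsProbabilityMeasure μ]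
  (T : X ≃ᵐ X) (f g : X → ℂ) (w : ℕ → ℂ) (p : ℤ → ℂ) (B : ℝ) (N : ℕ → X → ℕ) (θ : ℕ → X → ℂ)
  (R : ℕ → ℕ → ℕ → X → ℂ), MeasurePreserving T μ μ →
    Measurable f → Measurable g → (∀ x, ‖f x‖ ≤ 1) → (∀ x, ‖g x‖ ≤ 1) → WGood.{u} B w p →
      RTimes N θ → IsLim μ T f g w N θ R →
        ∀ᵐ x ∂μ, ∀ (c : ℕ) (s : Finset (ℕ × ℕ)) (u : ℕ × ℕ → ℂ),
          ‖∑ i ∈ s, u i * R i.1 i.2 c x‖ ^ 2 ≤ (qf p (pf μ T f x) s u).re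

/-- M16: the second pair bound -/
def M_B13 : Prop := ∀ (X : Type u) [MeasurableSpace X] (μ : Measure X) [IsProbabilityMeasure μ]
  (T : X ≃ᵐ X) (f g : X → ℂ) (w : ℕ → ℂ) (p : ℤ → ℂ) (B : ℝ) (N : ℕ → X → ℕ) (θ : ℕ → X → ℂ)
  (R : ℕ → ℕ → ℕ → X → ℂ), MeasurePreserving T μ μ →
    Measurable f → Measurable g → (∀ x, ‖f x‖ ≤ 1) → (∀ x, ‖g x‖ ≤ 1) → WGood.{u} B w p →
      RTimes N θ → IsLim μ T f g w N θ R →
        ∀ᵐ x ∂μ, ∀ (b : ℕ) (s : Finset (ℕ × ℕ)) (u : ℕ × ℕ → ℂ),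
          ‖∑ i ∈ s, u i * R i.1 b i.2 x‖ ^ 2 ≤ (qf p (pf μ T.symm g x) s u).re

/-- M17: the third pair bound -/
def M_B23 : Prop := ∀ (X : Type u) [MeasurableSpace X] (μ : Measure X) [IsProbabilityMeasure μ]
  (T : X ≃ᵐ X) (f g : X → ℂ) (w : ℕ → ℂ) (B : ℝ) (N : ℕ → X → ℕ) (θ : ℕ → X → ℂ)
  (R : ℕ → ℕ → ℕ → X → ℂ), MeasurePreserving T μ μ →
    Measurable f → Measurable g → (∀ x, ‖f x‖ ≤ 1) → (∀ x, ‖g x‖ ≤ 1) → (∀ n, ‖w n‖ ≤ B) →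
      DRfg μ T f g → RTimes N θ → IsLim μ T f g w N θ R →
        ∀ᵐ x ∂μ, ∀ (a : ℕ) (s : Finset (ℕ × ℕ)) (u : ℕ × ℕ → ℂ),
          ‖∑ i ∈ s, u i * R a i.1 i.2 x‖ ^ 2 ≤
            (2 * B ^ 2) * (qf (pf μ T f x) (pf μ T.symm g x) s u).re

/-- M18: the maximal inequality for weights with singular spectral measure -/
def M_MXW : Prop := ∀ (X : Type u) [MeasurableSpace X] (μ : Measure X) [IsProbabilityMeasure μ]
  (T : X ≃ᵐ X) (f g : X → ℂ) (w : ℕ → ℂ) (p : ℤ → ℂ) (B : ℝ) (σ : Measure T1)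
  [IsFiniteMeasure σ], MeasurePreserving T μ μ →
    Measurable f → Measurable g → (∀ x, ‖f x‖ ≤ 1) → (∀ x, ‖g x‖ ≤ 1) → WGood.{u} B w p →
      DRfg μ T f g → IsHat σ p → σ ⟂ₘ (volume : Measure T1) → ∀ δ > (0 : ℝ),
        δ * μ.real {x | ∃ᶠ M in atTop, δ < ‖avg T f g w M x‖} ≤ √(σ.real (atoms σ))

/-- M19: the maximal inequality for functions with singular spectral measure -/
def M_MXF : Prop := ∀ (X : Type u) [MeasurableSpace X] (μ : Measure X) [IsProbabilityMeasure μ]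
  (T : X ≃ᵐ X) (f g : X → ℂ) (w : ℕ → ℂ) (p : ℤ → ℂ) (B : ℝ) (σ : Measure T1), Ergodic T μ →
    Measurable f → Measurable g → (∀ x, ‖f x‖ ≤ 1) → (∀ x, ‖g x‖ ≤ 1) → WGood.{u} B w p →
      DRfg μ T f g → IsSpec μ T f σ → σ ⟂ₘ (volume : Measure T1) → ∀ δ > (0 : ℝ),
        δ * μ.real {x | ∃ᶠ M in atTop, δ < ‖avg T f g w M x‖} ≤ B * √(σ.real (atoms σ))

/-! ## Part A: assembly -/

/-- A1: the pointwise ergodic theorem for bounded complex functions on an ergodic system -/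
def A_BIR : Prop := ∀ (Ω : Type v) [MeasurableSpace Ω] (m : Measure Ω) [IsProbabilityMeasure m]
  (S : Ω ≃ᵐ Ω), Ergodic S m → ∀ (H : Ω → ℂ) (C : ℝ), Measurable H → (∀ ω, ‖H ω‖ ≤ C) →
    ∀ᵐ ω ∂m, Tendsto (fun N : ℕ => (∑ n ∈ Finset.Icc 1 N, H (S^[n] ω)) / (N : ℂ)) atTop
      (𝓝 (∫ ω', H ω' ∂m))

/-- A0: bounded functions have spectral measures -/
def A_SPC : Prop := ∀ (Ω : Type v) [MeasurableSpace Ω] (m : Measure Ω) [IsProbabilityMeasure m]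
  (S : Ω ≃ᵐ Ω), MeasurePreserving S m m → ∀ (h : Ω → ℂ) (C : ℝ), Measurable h →
    (∀ ω, ‖h ω‖ ≤ C) → ∃ σ : Measure T1, IsSpec m S h σ

/-- A2: almost every point gives a good weight with the right correlations -/
def A_WGD : Prop := ∀ (Ω : Type v) [MeasurableSpace Ω] (m : Measure Ω) [IsProbabilityMeasure m]
  (S : Ω ≃ᵐ Ω), Ergodic S m → ∀ (q : Ω → ℂ) (B : ℝ) (σ : Measure T1), Measurable q →
    (∀ ω, ‖q ω‖ ≤ B) → IsSpec m S q σ →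
      ∀ᵐ ω ∂m, WGood.{u} B (fun n => q (S^[n] ω)) (fun k => ∫ t, fourier k t ∂σ)

/-- A3: removing finitely many atoms of the spectral measure by eigenfunctions -/
def A_ATM : Prop := ∀ (Ω : Type v) [MeasurableSpace Ω] (m : Measure Ω) [IsProbabilityMeasure m]
  (S : Ω ≃ᵐ Ω), MeasurePreserving S m m → ∀ (H : Ω → ℂ) (B : ℝ) (σ : Measure T1), Measurable H →
    (∀ ω, ‖H ω‖ ≤ B) → IsSpec m S H σ → ∀ F : Finset T1, ∃ φ : T1 → Ω → ℂ,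
      (∀ t, Measurable (φ t)) ∧ (∃ C : ℝ, ∀ t ω, ‖φ t ω‖ ≤ C) ∧
      (∀ t, ∀ᵐ ω ∂m, φ t (S ω) = fourier 1 t * φ t ω) ∧
      IsSpec m S (fun ω => H ω - ∑ t ∈ F, φ t ω) (σ.restrict (F : Set T1)ᶜ)

/-- A4: finitely many points carry most of the atomic mass -/
def A_SML : Prop := ∀ (σ : Measure T1) [IsFiniteMeasure σ] (ε : ℝ), 0 < ε → ∃ F : Finset T1,
  (σ.restrict (F : Set T1)ᶜ).real (atoms (σ.restrict (F : Set T1)ᶜ)) ≤ ε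

/-- A5: characters are good weights for double recurrence if the weight one is good -/
def A_EIG : Prop := GoodWeight.{u} (fun _ => 1) → ∀ ζ : ℂ, ‖ζ‖ = 1 →
  GoodWeight.{u} (fun n => ζ ^ n)

/-- A6: products of linear good weights with characters -/
def A_LEG : Prop := ∀ w : ℕ → ℂ, LGood.{u} w → ∀ ζ : ℂ, ‖ζ‖ = 1 → LGood.{u} (fun n => ζ ^ n * w n)

/-- A7: a criterion for convergence almost everywhere -/
def A_CAU : Prop := ∀ (X : Type u) [MeasurableSpace X] (μ : Measure X) [IsProbabilityMeasure μ]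
  (A : ℕ → X → ℂ), (∀ N, Measurable (A N)) →
    (∀ ε > (0 : ℝ), ∃ V Q : ℕ → X → ℂ, (∀ N, Measurable (Q N)) ∧
      (∀ᵐ x ∂μ, ∀ N, A N x = V N x + Q N x) ∧
      (∀ᵐ x ∂μ, ∃ l : ℂ, Tendsto (fun N => V N x) atTop (𝓝 l)) ∧
      ∀ δ > (0 : ℝ), δ * μ.real {x | ∃ᶠ N in atTop, δ < ‖Q N x‖} ≤ ε) →
    ∀ᵐ x ∂μ, ∃ l : ℂ, Tendsto (fun N => A N x) atTop (𝓝 l)

/-- A8: from bounded functions to essentially bounded functions on the system `X` -/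
def A_LIX : Prop := ∀ (X : Type u) [MeasurableSpace X] (μ : Measure X) [IsProbabilityMeasure μ]
  (T : X ≃ᵐ X), MeasurePreserving T μ μ → ∀ f : X → ℂ, MemLp f ⊤ μ →
    ∃ (C : ℝ) (f' : X → ℂ), 0 < C ∧ Measurable f' ∧ (∀ x, ‖f' x‖ ≤ 1) ∧
      ∀ᵐ x ∂μ, ∀ n : ℕ, f (T^[n] x) = C * f' (T^[n] x) ∧ f (T.symm^[n] x) = C * f' (T.symm^[n] x)

/-- A9: the theorem for the weights, bounded functions -/
def A_THW : Prop := ∀ (Ω : Type v) [MeasurableSpace Ω] (m : Measure Ω) [IsProbabilityMeasure m]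
  (S : Ω ≃ᵐ Ω), Ergodic S m → ∀ (h : Ω → ℂ) (σ : Measure T1), Measurable h → (∀ ω, ‖h ω‖ ≤ 1) →
    IsSpec m S h σ → σ ⟂ₘ (volume : Measure T1) →
      ∀ᵐ ω ∂m, (GoodWeight.{u} (fun _ => 1) → GoodWeight.{u} (fun n => h (S^[n] ω))) ∧
        ((∀ t, σ {t} = 0) → ∀ (X : Type u) [MeasurableSpace X] (μ : Measure X)
          [IsProbabilityMeasure μ] (T : X ≃ᵐ X), MeasurePreserving T μ μ → DR μ T →
            ∀ f g : X → ℂ, MemLp f ⊤ μ → MemLp g ⊤ μ →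
              ∀ᵐ x ∂μ, Tendsto (fun N => avg T f g (fun n => h (S^[n] ω)) N x) atTop (𝓝 0))

/-- A10: the theorem for the system side, bounded weights -/
def A_THX : Prop := ∀ (Ω : Type v) [MeasurableSpace Ω] (m : Measure Ω) [IsProbabilityMeasure m]
  (S : Ω ≃ᵐ Ω), Ergodic S m → ∀ (h : Ω → ℂ), Measurable h → (∀ ω, ‖h ω‖ ≤ 1) →
    ∀ᵐ ω ∂m, ∀ (X : Type u) [MeasurableSpace X] (μ : Measure X) [IsProbabilityMeasure μ]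
      (T : X ≃ᵐ X), Ergodic T μ → DR μ T → ∀ f g : X → ℂ, MemLp f ⊤ μ → MemLp g ⊤ μ →
        (∃ σ : Measure T1, σ ⟂ₘ (volume : Measure T1) ∧ (IsSpec μ T f σ ∨ IsSpec μ T g σ)) →
          ∀ᵐ x ∂μ, ∃ l : ℂ,
            Tendsto (fun N => avg T f g (fun n => h (S^[n] ω)) N x) atTop (𝓝 l)

/-- the properties of the final theorem -/
def Final : Prop :=
  (∀ (Ω : Type v) (P : MeasurableSpace Ω) [m0 : MeasurableSpace Ω] (m : Measure Ω)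
    [IsProbabilityMeasure m] (S : Ω ≃ᵐ Ω), Ergodic S m → P ≤ m0 →
    Pool.Agent.H85.RT.IsMono S.toEquiv P → ∀ (h : Ω → ℂ) (σ : Measure T1), MemLp h ⊤ m →
    AEStronglyMeasurable[Pool.Agent.H85.RT.span S.toEquiv P] h m →
    IsSpec m S (m[h | Pool.Agent.H85.RT.tail S.toEquiv P]) σ → σ ⟂ₘ (volume : Measure T1) →
    ∃ G : Set Ω, MeasurableSet G ∧ m G = 1 ∧ ∀ ω ∈ G,
      (GoodWeight.{u} (fun _ => 1) → Good.{u} S h ω) ∧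
        ((∀ t, σ {t} = 0) → ∀ (X : Type u) [MeasurableSpace X] (μ : Measure X)
          [IsProbabilityMeasure μ] (T : X ≃ᵐ X), MeasurePreserving T μ μ → DR μ T →
            ∀ f g : X → ℂ, MemLp f ⊤ μ → MemLp g ⊤ μ →
              ∀ᵐ x ∂μ, Tendsto (fun N => avg T f g (fun n => h (S^[n] ω)) N x) atTop (𝓝 0))) ∧
  (∀ (Ω : Type v) [MeasurableSpace Ω] (m : Measure Ω) [IsProbabilityMeasure m] (S : Ω ≃ᵐ Ω),
    Ergodic S m → ∀ h : Ω → ℂ, MemLp h ⊤ m →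
    ∃ G : Set Ω, MeasurableSet G ∧ m G = 1 ∧ ∀ ω ∈ G, ∀ (X : Type u) [MeasurableSpace X]
      (μ : Measure X) [IsProbabilityMeasure μ] (T : X ≃ᵐ X), Ergodic T μ → DR μ T →
        ∀ f g : X → ℂ, MemLp f ⊤ μ → MemLp g ⊤ μ →
          (∃ σ : Measure T1, σ ⟂ₘ (volume : Measure T1) ∧ (IsSpec μ T f σ ∨ IsSpec μ T g σ)) →
            ∀ᵐ x ∂μ, ∃ l : ℂ,
              Tendsto (fun N => avg T f g (fun n => h (S^[n] ω)) N x) atTop (𝓝 l))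

end Pool.Agent.H84.SS
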