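import Pool.Agent.H84.SS.Defs

/-!
# Return times for double recurrence, singular spectrum: small tools
-/

set_option autoImplicit false

namespace Pool.Agent.H84.SS

open MeasureTheory Filter Topology Set ProbabilityTheory
open scoped ENNReal ComplexConjugate

universe u

theorem invariants_symm {X : Type u} [MeasurableSpace X] (T : X ≃ᵐ X) :
    MeasurableSpace.invariants T.symm = MeasurableSpace.invariants T := by
  apply le_antisymm
  · intro s hs
    rw [MeasurableSpace.measurableSet_invariants] at hs ⊢
    refine ⟨hs.1, ?_⟩
    conv_lhs => rw [← hs.2]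
    rw [← Set.preimage_comp]
    have : (T.symm ∘ T) = id := by
      funext x
      simp
    rw [this, Set.preimage_id]
  · intro s hs
    rw [MeasurableSpace.measurableSet_invariants] at hs ⊢
    refine ⟨hs.1, ?_⟩
    conv_lhs => rw [← hs.2]
    rw [← Set.preimage_comp]
    have : (T ∘ T.symm) = id := by
      funext x
      simp
    rw [this, Set.preimage_id]

theorem mp_symm {X : Type u} [MeasurableSpace X] {μ : Measure X} {T : X ≃ᵐ X}
    (hT : MeasurePreserving T μ μ) : MeasurePreserving T.symm μ μ :=
  MeasurePreserving.symm T hT

theorem inv_iter {X : Type u} [MeasurableSpace X] {T : X → X} {Q : Set X}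
    (hQ : MeasurableSet[MeasurableSpace.invariants T] Q) (n : ℕ) : T^[n] ⁻¹' Q = Q := by
  rw [MeasurableSpace.measurableSet_invariants] at hQ
  induction n with
  | zero => rfl
  | succ n ih => rw [Function.iterate_succ', Set.preimage_comp, hQ.2, ih]

/-- integrals over invariant sets are invariant -/
theorem setIntegral_iter {X : Type u} [MeasurableSpace X] {μ : Measure X} {T : X ≃ᵐ X}
    (hT : MeasurePreserving T μ μ) {Q : Set X}
    (hQ : MeasurableSet[MeasurableSpace.invariants T] Q) (F : X → ℂ) (n : ℕ) :
    ∫ x in Q, F (T^[n] x) ∂μ = ∫ x in Q, F x ∂μ := by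
  have hemb : ∀ n : ℕ, MeasurableEmbedding (T^[n]) := by
    intro n
    induction n with
    | zero => exact MeasurableEmbedding.id
    | succ n ih =>
      rw [Function.iterate_succ]
      exact ih.comp T.measurableEmbedding
  have h := (hT.iterate n).setIntegral_preimage_emb (hemb n) F Q
  rw [inv_iter hQ n] at h
  exact h

end Pool.Agent.H84.SS
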